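import Pool.Agent.K7.H48.SK.Info

/-!
# Counting the conditions on the levels below `θ`
-/

set_option autoImplicit false
set_option linter.unusedSectionVars false
set_option linter.unusedVariables false

namespace Pool.Agent.K7.H48.SK

open Pool.Agent.W868 Pool.Agent.W868.PName Pool.Agent.R598.SY
open ZFSet (pair)
open Cardinal (aleph)

theorem od_lt {k : ℕ} (a : I k) : od a < wo k := Ordinal.typein_lt_self a

theorem od_inj {k : ℕ} {a b : I k} (h : od a = od b) : a = b :=
  Ordinal.typein_injective _ h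

theorem od_surj {k : ℕ} {α : Ordinal.{0}} (h : α < wo k) : ∃ a : I k, od a = α := by
  have h1 : α < Ordinal.type (α := I k) (· < ·) := by
    rw [Ordinal.type_toType]
    exact h
  exact Ordinal.typein_surj _ h1

theorem wo_mono {k m : ℕ} (h : k ≤ m) : wo k ≤ wo m :=
  Cardinal.ord_le_ord.2 (Cardinal.aleph_le_aleph.2 (by exact_mod_cast h))

/-- The supremum of the `ω_k`. -/
noncomputable def lam : Ordinal.{0} := ⨆ k : ℕ, wo k

theorem lt_lam {α : Ordinal.{0}} (h : α < lam) (m : ℕ) : ∃ k, m ≤ k ∧ α < wo k := by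
  obtain ⟨k, hk⟩ := Ordinal.lt_iSup_iff.1 h
  exact ⟨max m k, le_max_left _ _, hk.trans_le (wo_mono (le_max_right _ _))⟩

theorem wo_le_lam (k : ℕ) : wo k ≤ lam := Ordinal.le_iSup _ k

theorem mk_I (k : ℕ) : Cardinal.mk (I k) = aleph (k : Ordinal.{0}) := by
  rw [Cardinal.mk_toType, wo, Cardinal.card_ord]

/-- The elementary conditions on the levels below `θ`. -/
abbrev El' (θ : ℕ) : Type := {c : Σ j, A j // lv c.1 < θ}

theorem exists_up {k θ : ℕ} (h : k ≤ θ) (a : I k) : ∃ b : I θ, od b = od a :=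
  od_surj ((od_lt a).trans_le (wo_mono h))

open Classical in
/-- The code of an elementary condition. -/
noncomputable def cd (θ : ℕ) : El' θ → (Bool × ℕ × ℕ) × I θ × Nd × Nd
  | ⟨⟨.co k n, a⟩, h⟩ => ((true, k, n), (exists_up (le_of_lt h) (a : I k)).choose, [], [])
  | ⟨⟨.tr k a s, l⟩, h⟩ => ((false, k, 0), (exists_up (le_of_lt h) a).choose, s, l)

theorem cd_inj (θ : ℕ) : Function.Injective (cd θ) := by
  rintro ⟨⟨_ | _, a⟩, h⟩ ⟨⟨_ | _, b⟩, h'⟩ e
  · rename_i k n k' n'
    simp only [cd, Prod.mk.injEq] at e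
    obtain ⟨⟨-, rfl, rfl⟩, h2, -, -⟩ := e
    have h3 := (exists_up (le_of_lt h) (a : I k)).choose_spec
    have h4 := (exists_up (le_of_lt h') (b : I k)).choose_spec
    rw [h2, h4] at h3
    have h5 : (a : I k) = b := (od_inj h3).symm
    subst h5
    rfl
  · simp [cd] at e
  · simp [cd] at e
  · rename_i k c s k' c' s'
    simp only [cd, Prod.mk.injEq] at e
    obtain ⟨⟨-, rfl, -⟩, h2, rfl, rfl⟩ := e
    have h3 := (exists_up (le_of_lt h) c).choose_spec
    have h4 := (exists_up (le_of_lt h') c').choose_spec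
    rw [h2, h4] at h3
    have h5 : c = c' := (od_inj h3).symm
    subst h5
    rfl

theorem mk_El (θ : ℕ) : Cardinal.mk (El' θ) ≤ aleph (θ : Ordinal.{0}) := by
  have h0 : Cardinal.aleph0 ≤ aleph (θ : Ordinal.{0}) := Cardinal.aleph0_le_aleph _
  have hc : ∀ (α : Type) [Countable α], Cardinal.mk α ≤ aleph (θ : Ordinal.{0}) := fun α _ =>
    (Cardinal.mk_le_aleph0).trans h0
  refine (Cardinal.mk_le_of_injective (cd_inj θ)).trans ?_
  rw [Cardinal.mk_prod, Cardinal.lift_id, Cardinal.lift_id, Cardinal.mk_prod (I θ),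
    Cardinal.lift_id, Cardinal.lift_id, mk_I]
  exact Cardinal.mul_le_of_le h0 (hc _) (Cardinal.mul_le_of_le h0 le_rfl (hc _))

theorem mk_fin (θ : ℕ) : Cardinal.mk (ℕ × Finset (El' θ)) ≤ aleph (θ : Ordinal.{0}) := by
  classical
  have h0 : Cardinal.aleph0 ≤ aleph (θ : Ordinal.{0}) := Cardinal.aleph0_le_aleph _
  rw [Cardinal.mk_prod, Cardinal.lift_id, Cardinal.lift_id]
  refine Cardinal.mul_le_of_le h0 (Cardinal.mk_le_aleph0.trans h0) ?_
  refine (Cardinal.mk_le_of_surjective List.toFinset_surjective).trans ?_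
  exact (Cardinal.mk_list_le_max _).trans (max_le h0 (mk_El θ))

/-- The union of the open sets of the other indices. -/
def Oth {ι : Type} (B : ι → ℕ → Set X) (a : ι) (n : ℕ) : Set X := ⋃ b : {b // b ≠ a}, B b.1 n

theorem exists_small {θ : ℕ} (B : I (θ + 1) → ℕ → Set X) (hO : ∀ a n, Op (B a n))
    (hD : ∀ a n, Det θ (B a n)) : ∃ a, ∀ n, B a n ∩ ext (Oth B a n) = ∅ := by
  classical
  by_contra hcon
  push Not at hcon
  have h1 : ∀ a, ∃ n, (B a n ∩ ext (Oth B a n)).Nonempty := fun a => by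
    obtain ⟨n, hn⟩ := hcon a
    exact ⟨n, hn⟩
  choose n x hx using h1
  have hOp : ∀ a, Op (B a (n a) ∩ ext (Oth B a (n a))) := fun a => (hO a _).inter (op_ext _)
  have hDet : ∀ a, Det θ (B a (n a) ∩ ext (Oth B a (n a))) := by
    intro a y hy z hz
    refine ⟨hD a _ y hy.1 z hz, Det.ext (θ := θ) ?_ y hy.2 z hz⟩
    intro u hu v hv
    obtain ⟨b, hb⟩ := Set.mem_iUnion.1 hu
    exact Set.mem_iUnion.2 ⟨b, hD b.1 _ u hb v hv⟩
  choose F hF using fun a => hOp a (x a) (hx a)
  let u : I (θ + 1) → Finset (El' θ) := fun a =>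
    ((F a).image fun j => (⟨j, x a j⟩ : Σ j, A j)).subtype fun c => lv c.1 < θ
  have hinj : Function.Injective fun a => (n a, u a) := by
    intro a b hab
    obtain ⟨hn, hu⟩ := Prod.mk.inj hab
    have h2 : x a ∈ B b (n b) ∩ ext (Oth B b (n b)) := by
      let z : X := fun j => if lv j < θ then x a j else x b j
      have hz : z ∈ nb (x b) (F b) := by
        intro j hj
        by_cases h3 : lv j < θ
        · have h4 : (⟨⟨j, x b j⟩, h3⟩ : El' θ) ∈ u b :=
            Finset.mem_subtype.2 (Finset.mem_image.2 ⟨j, hj, rfl⟩)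
          rw [← hu] at h4
          obtain ⟨j', hj', e⟩ := Finset.mem_image.1 (Finset.mem_subtype.1 h4)
          obtain ⟨rfl, e'⟩ := Sigma.mk.inj e
          have h5 : z j' = x a j' := if_pos h3
          rw [h5]
          exact eq_of_heq e'
        · exact if_neg h3
      exact hDet b z (hF b hz) (x a) fun j hj => (if_pos hj).symm
    by_contra hne
    refine not_ext (O := Oth B b (n b)) (x := x a) (Set.mem_iUnion.2 ⟨⟨a, hne⟩, ?_⟩) h2.2
    rw [← hn]
    exact (hx a).1
  have h3 := (Cardinal.mk_le_of_injective hinj).trans (mk_fin θ)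
  rw [mk_I, Cardinal.aleph_le_aleph] at h3
  have h4 : θ + 1 ≤ θ := by exact_mod_cast h3
  omega

end Pool.Agent.K7.H48.SK
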