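import Pool.Agent.W868.Defs

/-!
# Sacks forcing over transitive models of ZF: definitions
-/

set_option autoImplicit false

namespace Pool.Agent.K7.H48.SK

open Pool.Agent.W868
open ZFSet (pair)

/-- `s` is a finite sequence of zeros and ones: a function from a natural number `n = {0, ..., n - 1}`
to `2 = {0, 1}`. The sequence `t` extends the sequence `s` if `s ⊆ t`. -/
def IsSeq (s : ZFSet.{0}) : Prop := ∃ n ∈ ZFSet.omega, ZFSet.IsFunc n (nat 2) s

/-- `p` is a perfect subtree of `2^{<ω}`: a nonempty set of finite sequences of zeros and ones that is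
closed under initial segments, such that every `s ∈ p` has two incomparable extensions in `p`. -/
structure IsPerfect (p : ZFSet.{0}) : Prop where
  nonempty : ∃ s, s ∈ p
  seqs : ∀ s ∈ p, IsSeq s
  closed : ∀ s ∈ p, ∀ t, IsSeq t → t ⊆ s → t ∈ p
  split : ∀ s ∈ p, ∃ t ∈ p, ∃ u ∈ p, s ⊆ t ∧ s ⊆ u ∧ ¬ t ⊆ u ∧ ¬ u ⊆ t

/-- `H` is a generic filter over `N` for Sacks forcing, the set of the perfect trees in `N`, ordered
by inclusion. -/
structure IsGeneric (N : Set ZFSet.{0}) (H : ZFSet.{0}) : Prop where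
  sub : ∀ p ∈ H, p ∈ N ∧ IsPerfect p
  up : ∀ p ∈ H, ∀ q ∈ N, IsPerfect q → p ⊆ q → q ∈ H
  dir : ∀ p ∈ H, ∀ q ∈ H, ∃ r ∈ H, r ⊆ p ∧ r ⊆ q
  meets : ∀ D ∈ N, (∀ p ∈ D, IsPerfect p) → (∀ p ∈ N, IsPerfect p → ∃ q ∈ D, q ⊆ p) →
    ∃ p ∈ D, p ∈ H

/-- The constructible universe `L[x]` of the transitive model `N` of ZF: the least transitive model of
ZF that has the same ordinals as `N` and contains `x`. -/
def LOf (N : Set ZFSet.{0}) (x : ZFSet.{0}) : Set ZFSet.{0} :=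
  {z | ∀ W : Set ZFSet.{0}, IsZF W → W ⊆ N → (∀ α ∈ N, α.IsOrdinal → α ∈ W) → x ∈ W → z ∈ W}

/-- In `N`, the ordinal `ω₁` is inaccessible to reals: `ω₁^{L[x]} < ω₁` for all `x ⊆ ω`, that is, some
ordinal is countable in `N` and uncountable in `L[x]`. -/
def InaccessibleToReals (N : Set ZFSet.{0}) : Prop :=
  ∀ x ∈ N, x ⊆ ZFSet.omega → ∃ κ ∈ N, κ.IsOrdinal ∧ (∃ f ∈ N, IsInj κ ZFSet.omega f) ∧
    ¬ ∃ f ∈ LOf N x, IsInj κ ZFSet.omega f

end Pool.Agent.K7.H48.SK
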