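import Mathlib

/-!
# Perfect trees: the combinatorial part

The nodes are finite sequences of zeros and ones, written backwards: the immediate extensions of
`s` are `b :: s`.
-/

set_option autoImplicit false

namespace Pool.Agent.K7.H48.SK

/-- Nodes. -/
abbrev Nd : Type := List Bool

/-- Perfect trees. -/
structure PT (t : Set Nd) : Prop where
  ne : [] ∈ t
  dc : ∀ b s, b :: s ∈ t → s ∈ t
  sp : ∀ s ∈ t, ∃ u ∈ t, ∃ v ∈ t, s <:+ u ∧ s <:+ v ∧ ¬ u <:+ v ∧ ¬ v <:+ u

/-- A set that is closed under initial segments. -/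
def DC (C : Set Nd) : Prop := ∀ b s, b :: s ∈ C → s ∈ C

theorem DC.sfx {C : Set Nd} (h : DC C) {a u : Nd} (hau : a <:+ u) (hu : u ∈ C) : a ∈ C := by
  obtain ⟨w, rfl⟩ := hau
  induction w with
  | nil => exact hu
  | cons b w ih => exact ih (h _ _ hu)

theorem sfx_cases {a u : Nd} (h : a <:+ u) : a = u ∨ ∃ b, b :: a <:+ u := by
  obtain ⟨w, rfl⟩ := h
  rcases List.eq_nil_or_concat w with rfl | ⟨w', b, rfl⟩
  · exact Or.inl rfl
  · exact Or.inr ⟨b, w', by simp⟩

theorem sfx_comp {a b c : Nd} (h : a <:+ c) (h' : b <:+ c) : a <:+ b ∨ b <:+ a :=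
  List.suffix_or_suffix_of_suffix h h'

theorem sfx_le {a b : Nd} (h : a <:+ b) : a.length ≤ b.length := h.length_le

/-- The first splitting node above a node. -/
inductive Spl (t : Set Nd) : Nd → Nd → Prop
  | here {a : Nd} : true :: a ∈ t → false :: a ∈ t → Spl t a a
  | step {a c : Nd} (b : Bool) : b :: a ∈ t → (!b) :: a ∉ t → Spl t (b :: a) c → Spl t a c

theorem mem_both {t : Set Nd} {a : Nd} (h1 : true :: a ∈ t) (h2 : false :: a ∈ t) (b : Bool) :
    b :: a ∈ t := by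
  cases b
  · exact h2
  · exact h1

theorem Spl.uniq {t : Set Nd} {a c c' : Nd} (h : Spl t a c) (h' : Spl t a c') : c = c' := by
  induction h with
  | here h1 h2 =>
    cases h' with
    | here _ _ => rfl
    | step b _ h3 _ => exact absurd (mem_both h1 h2 _) h3
  | step b h1 h2 h3 ih =>
    cases h' with
    | here h4 h5 => exact absurd (mem_both h4 h5 _) h2
    | step b' h4 h5 h6 =>
      have e : b = b' := by
        cases b <;> cases b'
        · rfl
        · exact absurd h1 h5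
        · exact absurd h1 h5
        · rfl
      subst e
      exact ih h6

theorem Spl.spec {t : Set Nd} {a c : Nd} (h : Spl t a c) : a <:+ c ∧ ∀ b, b :: c ∈ t := by
  induction h with
  | here h1 h2 => exact ⟨List.suffix_rfl, mem_both h1 h2⟩
  | step b _ _ _ ih => exact ⟨(List.suffix_cons b _).trans ih.1, ih.2⟩

theorem PT.DC {t : Set Nd} (h : PT t) : DC t := h.dc

theorem exists_spl {t : Set Nd} (h : PT t) {a : Nd} (ha : a ∈ t) : ∃ c, Spl t a c := by
  obtain ⟨u, hu, v, hv, hau, hav, huv, hvu⟩ := h.sp a ha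
  obtain ⟨w, rfl⟩ := hau
  induction hn : w.length generalizing w a with
  | zero =>
    rw [List.length_eq_zero_iff] at hn
    subst hn
    exact absurd hav huv
  | succ n ih =>
    rcases List.eq_nil_or_concat w with rfl | ⟨w', b, rfl⟩
    · exact absurd hav huv
    · have e : w'.concat b ++ a = w' ++ (b :: a) := by simp
      rw [e] at hu huv hvu
      have h1 : b :: a ∈ t := h.DC.sfx ⟨w', rfl⟩ hu
      by_cases h2 : (!b) :: a ∈ t
      · refine ⟨a, Spl.here ?_ ?_⟩ <;> cases b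
        · exact h2
        · exact h1
        · exact h1
        · exact h2
      · rcases sfx_cases hav with rfl | ⟨b', hb'⟩
        · exact absurd ((List.suffix_cons b a).trans (List.suffix_append w' (b :: a))) hvu
        · have e2 : b' = b := by
            by_contra hne
            have e3 : b' = !b := by cases b <;> cases b' <;> simp_all
            rw [e3] at hb'
            exact h2 (h.DC.sfx hb' hv)
          subst e2
          obtain ⟨c, hc⟩ := ih h1 hb' w' hu huv hvu (by simpa using hn)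
          exact ⟨c, Spl.step b' h1 h2 hc⟩

open Classical in
/-- Follow the label, if this is possible in the tree. -/
noncomputable def lbl (t : Set Nd) (T : Nd → Nd) (a : Nd) : Nd :=
  if T a ++ a ∈ t then T a ++ a else a

theorem sfx_lbl (t : Set Nd) (T : Nd → Nd) (a : Nd) : a <:+ lbl t T a := by
  unfold lbl
  split_ifs
  · exact List.suffix_append _ _
  · exact List.suffix_rfl

theorem lbl_mem {t : Set Nd} {a : Nd} (T : Nd → Nd) (ha : a ∈ t) : lbl t T a ∈ t := by
  unfold lbl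
  split_ifs with h
  · exact h
  · exact ha

/-- The stages of the construction. -/
def Rn (t : Set Nd) (T : Nd → Nd) : ℕ → Set Nd
  | 0 => {[]}
  | n + 1 => {e | ∃ a ∈ Rn t T n, ∃ c, Spl t (lbl t T a) c ∧ ∃ b, e = b :: c}

/-- The subtree of `t` given by the labels `T`. -/
def Ft (t : Set Nd) (T : Nd → Nd) : Set Nd := {e | ∃ n, ∃ a ∈ Rn t T n, e <:+ a}

variable {t : Set Nd} {T : Nd → Nd}

theorem rn_len {n : ℕ} {a : Nd} (h : a ∈ Rn t T n) : n ≤ a.length := by
  induction n generalizing a with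
  | zero => exact Nat.zero_le _
  | succ n ih =>
    obtain ⟨a', ha', c, hc, b, rfl⟩ := h
    have h1 := ih ha'
    have h2 := sfx_le ((sfx_lbl t T a').trans hc.spec.1)
    simp only [List.length_cons]
    omega

theorem rn_fin (n : ℕ) : (Rn t T n).Finite := by
  induction n with
  | zero => exact Set.finite_singleton _
  | succ n ih =>
    classical
    let f : Nd → Nd := fun a => if h : ∃ c, Spl t (lbl t T a) c then h.choose else []
    refine ((ih.image fun a => true :: f a).union (ih.image fun a => false :: f a)).subset ?_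
    rintro e ⟨a, ha, c, hc, b, rfl⟩
    have h1 : ∃ c, Spl t (lbl t T a) c := ⟨c, hc⟩
    have h2 : f a = c := by
      simp only [f]
      rw [dif_pos h1]
      exact h1.choose_spec.uniq hc
    cases b
    · exact Or.inr ⟨a, ha, by simp only [h2]⟩
    · exact Or.inl ⟨a, ha, by simp only [h2]⟩

theorem rn_mem (ht : PT t) {n : ℕ} {a : Nd} (h : a ∈ Rn t T n) : a ∈ t := by
  cases n with
  | zero =>
    rw [Set.mem_singleton_iff.1 h]
    exact ht.ne
  | succ n =>
    obtain ⟨a', ha', c, hc, b, rfl⟩ := h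
    exact hc.spec.2 b

/-- An ancestor in an earlier stage. -/
theorem rn_anc {m n : ℕ} (hmn : m ≤ n) {a : Nd} (h : a ∈ Rn t T n) : ∃ a' ∈ Rn t T m, a' <:+ a := by
  induction n generalizing a with
  | zero =>
    obtain rfl : m = 0 := by omega
    exact ⟨a, h, List.suffix_rfl⟩
  | succ n ih =>
    rcases Nat.lt_or_ge n m with h1 | h1
    · obtain rfl : m = n + 1 := by omega
      exact ⟨a, h, List.suffix_rfl⟩
    · obtain ⟨a', ha', c, hc, b, rfl⟩ := h
      obtain ⟨d, hd, hd'⟩ := ih h1 ha'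
      exact ⟨d, hd, hd'.trans (((sfx_lbl t T a').trans hc.spec.1).trans (List.suffix_cons b c))⟩

/-- A descendant in a later stage. -/
theorem rn_desc (ht : PT t) {m n : ℕ} (hmn : m ≤ n) {a : Nd} (h : a ∈ Rn t T m) :
    ∃ a' ∈ Rn t T n, a <:+ a' := by
  induction n with
  | zero =>
    obtain rfl : m = 0 := by omega
    exact ⟨a, h, List.suffix_rfl⟩
  | succ n ih =>
    rcases Nat.lt_or_ge n m with h1 | h1
    · obtain rfl : m = n + 1 := by omega
      exact ⟨a, h, List.suffix_rfl⟩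
    · obtain ⟨a', ha', h2⟩ := ih h1
      obtain ⟨c, hc⟩ := exists_spl ht (lbl_mem T (rn_mem ht ha'))
      exact ⟨true :: c, ⟨a', ha', c, hc, true, rfl⟩,
        h2.trans (((sfx_lbl t T a').trans hc.spec.1).trans (List.suffix_cons true c))⟩

theorem ft_dc (t : Set Nd) (T : Nd → Nd) : DC (Ft t T) := by
  rintro b s ⟨n, a, ha, h⟩
  exact ⟨n, a, ha, (List.suffix_cons b s).trans h⟩

theorem ft_sub (ht : PT t) : Ft t T ⊆ t := by
  rintro e ⟨n, a, ha, h⟩
  exact ht.DC.sfx h (rn_mem ht ha)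

theorem ft_cover (ht : PT t) {e : Nd} (he : e ∈ Ft t T) (n : ℕ) :
    ∃ a ∈ Rn t T n, a <:+ e ∨ e <:+ a := by
  obtain ⟨m, c, hc, hec⟩ := he
  rcases Nat.le_total n m with h | h
  · obtain ⟨a, ha, hac⟩ := rn_anc h hc
    exact ⟨a, ha, sfx_comp hac hec⟩
  · obtain ⟨a, ha, hca⟩ := rn_desc ht h hc
    exact ⟨a, ha, Or.inr (hec.trans hca)⟩

theorem ft_pt (ht : PT t) : PT (Ft t T) := by
  refine ⟨⟨0, [], rfl, List.suffix_rfl⟩, ft_dc t T, ?_⟩
  rintro s ⟨n, a, ha, hs⟩
  obtain ⟨c, hc⟩ := exists_spl ht (lbl_mem T (rn_mem ht ha))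
  have h1 : s <:+ c := hs.trans ((sfx_lbl t T a).trans hc.spec.1)
  have hb : ∀ b, b :: c ∈ Ft t T := fun b => ⟨n + 1, b :: c, ⟨a, ha, c, hc, b, rfl⟩, List.suffix_rfl⟩
  refine ⟨true :: c, hb _, false :: c, hb _, h1.trans (List.suffix_cons _ _),
    h1.trans (List.suffix_cons _ _), fun h => ?_, fun h => ?_⟩
  · have h2 := h.eq_of_length (by simp)
    simp at h2
  · have h2 := h.eq_of_length (by simp)
    simp at h2

/-! ### Finite information -/

/-- The trees and the labels agree on `L`. -/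
def Ag (L : Finset Nd) (t t' : Set Nd) (T T' : Nd → Nd) : Prop :=
  ∀ s ∈ L, (s ∈ t ↔ s ∈ t') ∧ T s = T' s

theorem Ag.mono {L L' : Finset Nd} {t t' : Set Nd} {T T' : Nd → Nd} (h : Ag L' t t' T T')
    (hL : L ⊆ L') : Ag L t t' T T' := fun s hs => h s (hL hs)

theorem Ag.refl (L : Finset Nd) (t : Set Nd) (T : Nd → Nd) : Ag L t t T T :=
  fun _ _ => ⟨Iff.rfl, rfl⟩

theorem spl_info {a c : Nd} (h : Spl t a c) :
    ∃ L : Finset Nd, ∀ t' : Set Nd, (∀ s ∈ L, (s ∈ t ↔ s ∈ t')) → Spl t' a c := by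
  classical
  induction h with
  | @here a h1 h2 =>
    refine ⟨{true :: a, false :: a}, fun t' h => Spl.here ?_ ?_⟩
    · exact (h _ (by simp)).1 h1
    · exact (h _ (by simp)).1 h2
  | @step a c b h1 h2 _ ih =>
    obtain ⟨L, hL⟩ := ih
    refine ⟨insert (b :: a) (insert ((!b) :: a) L), fun t' h => Spl.step b ?_ ?_ ?_⟩
    · exact (h _ (by simp)).1 h1
    · exact fun h3 => h2 ((h _ (by simp)).2 h3)
    · exact hL t' fun s hs => h s (Finset.mem_insert_of_mem (Finset.mem_insert_of_mem hs))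

theorem lbl_info (t : Set Nd) (T : Nd → Nd) (a : Nd) :
    ∃ L : Finset Nd, ∀ t' T', Ag L t t' T T' → lbl t' T' a = lbl t T a := by
  classical
  refine ⟨{a, T a ++ a}, fun t' T' h => ?_⟩
  have h1 := (h a (by simp)).2
  have h2 := (h (T a ++ a) (by simp)).1
  unfold lbl
  rw [← h1]
  by_cases h3 : T a ++ a ∈ t
  · rw [if_pos h3, if_pos (h2.1 h3)]
  · rw [if_neg h3, if_neg fun h4 => h3 (h2.2 h4)]

theorem succ_info {a c : Nd} (h : Spl t (lbl t T a) c) :
    ∃ L : Finset Nd, ∀ t' T', Ag L t t' T T' → Spl t' (lbl t' T' a) c := by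
  classical
  obtain ⟨L, hL⟩ := spl_info h
  obtain ⟨L', hL'⟩ := lbl_info t T a
  refine ⟨L ∪ L', fun t' T' h1 => ?_⟩
  rw [hL' t' T' (h1.mono Finset.subset_union_right)]
  exact hL t' fun s hs => (h1 s (Finset.mem_union_left _ hs)).1

theorem rn_info {n : ℕ} {a : Nd} (h : a ∈ Rn t T n) :
    ∃ L : Finset Nd, ∀ t' T', Ag L t t' T T' → a ∈ Rn t' T' n := by
  classical
  induction n generalizing a with
  | zero => exact ⟨∅, fun _ _ _ => h⟩
  | succ n ih =>
    obtain ⟨a', ha', c, hc, b, rfl⟩ := h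
    obtain ⟨L, hL⟩ := ih ha'
    obtain ⟨L', hL'⟩ := succ_info hc
    exact ⟨L ∪ L', fun t' T' h1 => ⟨a', hL t' T' (h1.mono Finset.subset_union_left), c,
      hL' t' T' (h1.mono Finset.subset_union_right), b, rfl⟩⟩

theorem ft_info {e : Nd} (h : e ∈ Ft t T) :
    ∃ L : Finset Nd, ∀ t' T', Ag L t t' T T' → e ∈ Ft t' T' := by
  obtain ⟨n, a, ha, hea⟩ := h
  obtain ⟨L, hL⟩ := rn_info ha
  exact ⟨L, fun t' T' h1 => ⟨n, a, hL t' T' h1, hea⟩⟩

theorem info_fin {α : Type} {s : Set α} (hs : s.Finite) {Q : α → Set Nd → (Nd → Nd) → Prop}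
    (h : ∀ a ∈ s, ∃ L : Finset Nd, ∀ t' T', Ag L t t' T T' → Q a t' T') :
    ∃ L : Finset Nd, ∀ t' T', Ag L t t' T T' → ∀ a ∈ s, Q a t' T' := by
  classical
  induction s, hs using Set.Finite.induction_on with
  | empty => exact ⟨∅, fun _ _ _ _ h => absurd h (Set.notMem_empty _)⟩
  | @insert a s _ _ ih =>
    obtain ⟨L, hL⟩ := ih fun a ha => h a (Set.mem_insert_of_mem _ ha)
    obtain ⟨L', hL'⟩ := h a (Set.mem_insert _ _)
    refine ⟨L ∪ L', fun t' T' h1 b hb => ?_⟩
    rcases hb with rfl | hb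
    · exact hL' t' T' (h1.mono Finset.subset_union_right)
    · exact hL t' T' (h1.mono Finset.subset_union_left) b hb

theorem rn_stab (ht : PT t) (n : ℕ) :
    ∃ L : Finset Nd, ∀ t' T', Ag L t t' T T' → ∀ m ≤ n, Rn t' T' m = Rn t T m := by
  classical
  induction n with
  | zero =>
    refine ⟨∅, fun t' T' _ m hm => ?_⟩
    obtain rfl : m = 0 := by omega
    rfl
  | succ n ih =>
    obtain ⟨L, hL⟩ := ih
    have h1 : ∀ a ∈ Rn t T n, ∃ c, Spl t (lbl t T a) c := fun a ha =>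
      exists_spl ht (lbl_mem T (rn_mem ht ha))
    choose! f hf using h1
    obtain ⟨L', hL'⟩ := info_fin (t := t) (T := T) (rn_fin n)
      (Q := fun a t' T' => Spl t' (lbl t' T' a) (f a)) fun a ha => succ_info (hf a ha)
    refine ⟨L ∪ L', fun t' T' h2 m hm => ?_⟩
    have h3 := hL t' T' (h2.mono Finset.subset_union_left)
    have h4 := hL' t' T' (h2.mono Finset.subset_union_right)
    rcases Nat.lt_or_ge n m with h5 | h5
    · obtain rfl : m = n + 1 := by omega
      ext e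
      constructor
      · rintro ⟨a, ha, c, hc, b, rfl⟩
        rw [h3 n le_rfl] at ha
        rw [hc.uniq (h4 a ha)]
        exact ⟨a, ha, f a, hf a ha, b, rfl⟩
      · rintro ⟨a, ha, c, hc, b, rfl⟩
        rw [hc.uniq (hf a ha)]
        refine ⟨a, ?_, f a, h4 a ha, b, rfl⟩
        rw [h3 n le_rfl]
        exact ha
    · exact h3 m h5

theorem nft_info (ht : PT t) {e : Nd} (h : e ∉ Ft t T) :
    ∃ L : Finset Nd, ∀ t' T', Ag L t t' T T' → e ∉ Ft t' T' := by
  obtain ⟨L, hL⟩ := rn_stab (T := T) ht (e.length + 1)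
  refine ⟨L, fun t' T' h1 => ?_⟩
  rintro ⟨m, c, hc, hec⟩
  have h2 := hL t' T' h1
  rcases Nat.le_total (e.length + 1) m with h3 | h3
  · obtain ⟨a, ha, hac⟩ := rn_anc h3 hc
    have h4 := rn_len ha
    rw [h2 _ le_rfl] at ha
    rcases sfx_comp hac hec with h5 | h5
    · have h6 := sfx_le h5
      omega
    · exact h ⟨_, a, ha, h5⟩
  · rw [h2 m h3] at hc
    exact h ⟨m, c, hc, hec⟩

/-! ### Escaping -/

/-- Labels that leave the set `C`. -/
theorem esc (ht : PT t) {C : Set Nd} (hC : DC C) (h : ∀ d ∈ t, ∃ u, u ++ d ∈ t ∧ u ++ d ∉ C)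
    (T : Nd → Nd) (N : ℕ) : ∃ T' : Nd → Nd, (∀ s, s.length ≤ N → T' s = T s) ∧
      ∃ n, ∀ e, n ≤ e.length → e ∈ Ft t T' → e ∉ C := by
  classical
  choose! f hf using h
  refine ⟨fun s => if s.length ≤ N then T s else f s, fun s hs => if_pos hs, ?_⟩
  set T' : Nd → Nd := fun s => if s.length ≤ N then T s else f s with hT'
  obtain ⟨M, hM⟩ := ((rn_fin (t := t) (T := T') (N + 2)).image List.length).bddAbove
  refine ⟨M + 1, fun e he heF heC => ?_⟩
  obtain ⟨a, ha, h1⟩ := ft_cover ht heF (N + 2)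
  have h2 : a.length ≤ M := hM ⟨a, ha, rfl⟩
  have h3 : a <:+ e := by
    rcases h1 with h1 | h1
    · exact h1
    · have h3 := sfx_le h1
      omega
  obtain ⟨d, hd, c, hc, b, rfl⟩ := ha
  have h4 := rn_len hd
  have hdt := rn_mem ht hd
  have h5 : T' d = f d := if_neg (by omega)
  have h6 : lbl t T' d = f d ++ d := by
    unfold lbl
    rw [h5, if_pos (hf d hdt).1]
  refine (hf d hdt).2 (hC.sfx ?_ heC)
  rw [← h6]
  exact (hc.spec.1.trans (List.suffix_cons b c)).trans h3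

/-- A branch. -/
theorem exists_branch (ht : PT t) {a : Nd} (ha : a ∈ t) : ∃ y : Set Nd, DC y ∧
    (∀ u ∈ y, ∀ v ∈ y, u <:+ v ∨ v <:+ u) ∧ ∀ n, ∃ e ∈ t, e ∈ y ∧ n ≤ e.length ∧ a <:+ e := by
  have h1 : ∀ s : t, ∃ u : t, s.1 <:+ u.1 ∧ s.1.length < u.1.length := by
    rintro ⟨s, hs⟩
    obtain ⟨c, hc⟩ := exists_spl ht hs
    refine ⟨⟨true :: c, hc.spec.2 true⟩, hc.spec.1.trans (List.suffix_cons _ _), ?_⟩
    have h1 := sfx_le hc.spec.1
    simp only [List.length_cons]
    omega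
  choose f hf hf' using h1
  let F : ℕ → t := fun n => Nat.rec ⟨a, ha⟩ (fun _ s => f s) n
  have hF : ∀ n, F (n + 1) = f (F n) := fun n => rfl
  have hlen : ∀ n, n ≤ (F n).1.length := by
    intro n
    induction n with
    | zero => exact Nat.zero_le _
    | succ n ih =>
      have h2 := hf' (F n)
      rw [hF]
      omega
  have hmono : ∀ m n, m ≤ n → (F m).1 <:+ (F n).1 := by
    intro m n hmn
    induction n, hmn using Nat.le_induction with
    | base => exact List.suffix_rfl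
    | succ n _ ih =>
      rw [hF]
      exact ih.trans (hf _)
  refine ⟨{e | ∃ n, e <:+ (F n).1}, ?_, ?_, ?_⟩
  · rintro b s ⟨n, h⟩
    exact ⟨n, (List.suffix_cons b s).trans h⟩
  · rintro u ⟨m, hu⟩ v ⟨n, hv⟩
    exact sfx_comp (hu.trans (hmono m _ (le_max_left m n))) (hv.trans (hmono n _ (le_max_right m n)))
  · intro n
    exact ⟨(F n).1, (F n).2, ⟨n, List.suffix_rfl⟩, hlen n, hmono 0 n (Nat.zero_le _)⟩

/-- New labels such that the tree does not contain the part of another tree above a node. -/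
theorem comb2 {t' : Set Nd} (ht : PT t) (ht' : PT t') {a : Nd} (ha : a ∈ t') (T : Nd → Nd)
    (N : ℕ) : ∃ T' : Nd → Nd, (∀ s, s.length ≤ N → T' s = T s) ∧
      ∃ c ∈ t', a <:+ c ∧ c ∉ Ft t T' := by
  obtain ⟨y, h1, h2, h3⟩ := exists_branch ht' ha
  obtain ⟨T', h4, n, h5⟩ := esc ht h1 (fun d hd => by
    obtain ⟨u, hu, v, hv, ⟨u', rfl⟩, ⟨v', rfl⟩, h6, h7⟩ := ht.sp d hd
    by_contra h8
    push Not at h8
    rcases h2 _ (h8 u' hu) _ (h8 v' hv) with h9 | h9
    · exact h6 h9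
    · exact h7 h9) T N
  refine ⟨T', h4, ?_⟩
  obtain ⟨e, h6, h7, h8, h9⟩ := h3 n
  exact ⟨e, h6, h9, fun h10 => h5 e h8 h10 h7⟩

/-- New labels such that the intersection of two trees is finite. -/
theorem comb1 {t' : Set Nd} {S : Nd → Nd} (ht : PT t)
    (h : ∀ a ∈ t, ∃ c ∈ t, a <:+ c ∧ c ∉ Ft t' S) (T : Nd → Nd)
    (N : ℕ) : ∃ T' : Nd → Nd, (∀ s, s.length ≤ N → T' s = T s) ∧
      ∃ n, ∀ e, n ≤ e.length → e ∈ Ft t T' → e ∉ Ft t' S := by
  refine esc ht (ft_dc t' S) (fun d hd => ?_) T N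
  obtain ⟨_, h1, ⟨u, rfl⟩, h2⟩ := h d hd
  exact ⟨u, h1, h2⟩

end Pool.Agent.K7.H48.SK
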