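import Pool.Agent.W868.Tool
import Pool.Agent.K7.H48.SK.Defs
import Pool.Agent.K7.H48.SK.Tree

/-!
# Finite sequences and perfect trees as sets
-/

set_option autoImplicit false
set_option linter.unusedSectionVars false
set_option linter.unusedVariables false
set_option linter.unreachableTactic false
set_option linter.unusedTactic false

namespace Pool.Agent.K7.H48.SK

open Pool.Agent.W868
open ZFSet (pair)

/-- The set that is the finite sequence `s`. -/
noncomputable def seq : Nd → ZFSet.{0}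
  | [] => ∅
  | b :: s => insert (pair (nat s.length) (nat (cond b 1 0))) (seq s)

theorem mem_seq {s : Nd} {z : ZFSet.{0}} : z ∈ seq s ↔
    ∃ b u, b :: u <:+ s ∧ z = pair (nat u.length) (nat (cond b 1 0)) := by
  induction s with
  | nil =>
    constructor
    · intro h
      exact absurd h (ZFSet.notMem_empty _)
    · rintro ⟨b, u, h, -⟩
      have h1 := h.length_le
      simp at h1
  | cons b s ih =>
    rw [seq, ZFSet.mem_insert_iff, ih]
    constructor
    · rintro (h | ⟨b', u, h, h1⟩)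
      · exact ⟨b, s, List.suffix_rfl, h⟩
      · exact ⟨b', u, h.trans (List.suffix_cons _ _), h1⟩
    · rintro ⟨b', u, h, h1⟩
      rcases List.suffix_cons_iff.1 h with h2 | h2
      · obtain ⟨rfl, rfl⟩ := List.cons.inj h2
        exact Or.inl h1
      · exact Or.inr ⟨b', u, h2, h1⟩

theorem cond_inj {b b' : Bool} (h : nat (cond b 1 0) = nat (cond b' 1 0)) : b = b' := by
  have h1 := nat_injective h
  cases b <;> cases b' <;> simp_all

theorem seq_sub {s s' : Nd} : seq s ⊆ seq s' ↔ s <:+ s' := by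
  constructor
  · intro h
    induction s with
    | nil => exact List.nil_suffix
    | cons b s ih =>
      have h1 := ih fun z hz => h (by
        rw [seq]
        exact ZFSet.mem_insert_iff.2 (Or.inr hz))
      have h2 : pair (nat s.length) (nat (cond b 1 0)) ∈ seq s' := h (by
        rw [seq]
        exact ZFSet.mem_insert_iff.2 (Or.inl rfl))
      obtain ⟨b', u, h3, h4⟩ := mem_seq.1 h2
      obtain ⟨h5, h6⟩ := ZFSet.pair_inj.1 h4
      have h7 : u <:+ s' := (List.suffix_cons b' u).trans h3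
      have h8 : u = s := by
        rcases List.suffix_or_suffix_of_suffix h7 h1 with h9 | h9
        · exact h9.eq_of_length (nat_injective h5).symm
        · exact (h9.eq_of_length (nat_injective h5)).symm
      rw [cond_inj h6, ← h8]
      exact h3
  · intro h z hz
    obtain ⟨b, u, h1, h2⟩ := mem_seq.1 hz
    exact mem_seq.2 ⟨b, u, h1.trans h, h2⟩

theorem seq_inj {s s' : Nd} (h : seq s = seq s') : s = s' := by
  have h1 : s <:+ s' := seq_sub.1 (by rw [h])
  have h2 : s' <:+ s := seq_sub.1 (by rw [h])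
  exact h1.eq_of_length (le_antisymm h1.length_le h2.length_le)

theorem mem_nat' {m : ℕ} {z : ZFSet.{0}} : z ∈ nat m ↔ ∃ k < m, z = nat k := by
  induction m with
  | zero =>
    constructor
    · intro hz
      exact absurd hz (ZFSet.notMem_empty _)
    · rintro ⟨k, hk, -⟩
      omega
  | succ m ih =>
    change z ∈ insert (nat m) (nat m) ↔ _
    rw [ZFSet.mem_insert_iff, ih]
    constructor
    · rintro (rfl | ⟨k, hk, rfl⟩)
      · exact ⟨m, Nat.lt_succ_self _, rfl⟩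
      · exact ⟨k, by omega, rfl⟩
    · rintro ⟨k, hk, rfl⟩
      rcases Nat.lt_succ_iff_lt_or_eq.1 hk with h | rfl
      · exact Or.inr ⟨k, h, rfl⟩
      · exact Or.inl rfl

theorem isFunc_seq (s : Nd) : ZFSet.IsFunc (nat s.length) (nat 2) (seq s) := by
  constructor
  · intro z hz
    obtain ⟨b, u, h1, rfl⟩ := mem_seq.1 hz
    have h2 := h1.length_le
    simp only [List.length_cons] at h2
    refine ZFSet.pair_mem_prod.2 ⟨mem_nat'.2 ⟨_, h2, rfl⟩, mem_nat'.2 ⟨_, ?_, rfl⟩⟩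
    cases b <;> simp
  · intro z hz
    obtain ⟨m, hm, rfl⟩ := mem_nat'.1 hz
    have h1 : ∃ b u, b :: u <:+ s ∧ u.length = m := by
      clear hz
      induction s with
      | nil => simp at hm
      | cons b s ih =>
        rcases Nat.lt_or_ge m s.length with h | h
        · obtain ⟨b', u, h1, h2⟩ := ih h
          exact ⟨b', u, h1.trans (List.suffix_cons _ _), h2⟩
        · simp only [List.length_cons] at hm
          exact ⟨b, s, List.suffix_rfl, by omega⟩
    obtain ⟨b, u, h2, rfl⟩ := h1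
    refine ⟨_, mem_seq.2 ⟨b, u, h2, rfl⟩, fun w hw => ?_⟩
    obtain ⟨b', u', h3, h4⟩ := mem_seq.1 hw
    obtain ⟨h5, rfl⟩ := ZFSet.pair_inj.1 h4
    have h6 := nat_injective h5
    have h7 : b' :: u' = b :: u := by
      rcases List.suffix_or_suffix_of_suffix h3 h2 with h9 | h9
      · exact h9.eq_of_length (by simp [h6])
      · exact (h9.eq_of_length (by simp [h6])).symm
    rw [(List.cons.inj h7).1]

theorem isSeq_iff {z : ZFSet.{0}} : IsSeq z ↔ ∃ s, z = seq s := by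
  constructor
  · rintro ⟨n, hn, h⟩
    obtain ⟨m, rfl⟩ := mem_omega_iff.1 hn
    have key : ∃ s : Nd, s.length = m ∧ z = seq s := by
      clear hn
      induction m generalizing z with
      | zero =>
        refine ⟨[], rfl, ?_⟩
        ext w
        constructor
        · intro hw
          obtain ⟨a, ha, -⟩ := ZFSet.mem_prod.1 (h.1 hw)
          exact absurd ha (ZFSet.notMem_empty _)
        · exact fun hw => absurd hw (ZFSet.notMem_empty _)
      | succ m ih =>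
        obtain ⟨w, hw, hu⟩ := h.2 (nat m) (mem_nat'.2 ⟨m, by omega, rfl⟩)
        obtain ⟨b, rfl⟩ : ∃ b : Bool, w = nat (cond b 1 0) := by
          obtain ⟨j, hj, rfl⟩ := mem_nat'.1 (ZFSet.pair_mem_prod.1 (h.1 hw)).2
          rcases j with _ | _ | j
          · exact ⟨false, rfl⟩
          · exact ⟨true, rfl⟩
          · omega
        obtain ⟨s, rfl, hs⟩ := ih (z := ZFSet.sep (fun v => v ≠ pair (nat m) (nat (cond b 1 0))) z) (by
          constructor
          · intro v hv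
            obtain ⟨hv1, hv2⟩ := ZFSet.mem_sep.1 hv
            obtain ⟨a, ha, c, hc, rfl⟩ := ZFSet.mem_prod.1 (h.1 hv1)
            refine ZFSet.pair_mem_prod.2 ⟨?_, hc⟩
            obtain ⟨j, hj, rfl⟩ := mem_nat'.1 ha
            refine mem_nat'.2 ⟨j, ?_, rfl⟩
            rcases Nat.lt_succ_iff_lt_or_eq.1 hj with h1 | rfl
            · exact h1
            · exact absurd (by rw [hu c hv1]) hv2
          · intro v hv
            obtain ⟨j, hj, rfl⟩ := mem_nat'.1 hv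
            obtain ⟨c, hc, hc'⟩ := h.2 (nat j) (mem_nat'.2 ⟨j, by omega, rfl⟩)
            refine ⟨c, ZFSet.mem_sep.2 ⟨hc, fun e => ?_⟩, fun d hd => hc' d (ZFSet.mem_sep.1 hd).1⟩
            have h1 := nat_injective (ZFSet.pair_inj.1 e).1
            omega)
        refine ⟨b :: s, rfl, ?_⟩
        ext v
        rw [seq, ZFSet.mem_insert_iff, ← hs, ZFSet.mem_sep]
        constructor
        · intro hv
          by_cases h1 : v = pair (nat s.length) (nat (cond b 1 0))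
          · exact Or.inl h1
          · exact Or.inr ⟨hv, h1⟩
        · rintro (rfl | ⟨h1, -⟩)
          · exact hw
          · exact h1
    obtain ⟨s, -, h1⟩ := key
    exact ⟨s, h1⟩
  · rintro ⟨s, rfl⟩
    exact ⟨_, mem_omega_iff.2 ⟨_, rfl⟩, isFunc_seq s⟩

/-- The set `p` is the set of the sequences in `t`. -/
def Code (p : ZFSet.{0}) (t : Set Nd) : Prop := ∀ w, w ∈ p ↔ ∃ s ∈ t, w = seq s

theorem Code.mem {p : ZFSet.{0}} {t : Set Nd} (h : Code p t) {s : Nd} : seq s ∈ p ↔ s ∈ t := by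
  rw [h]
  constructor
  · rintro ⟨s', h1, h2⟩
    rw [seq_inj h2]
    exact h1
  · exact fun h1 => ⟨s, h1, rfl⟩

theorem Code.sub {p q : ZFSet.{0}} {t u : Set Nd} (h : Code p t) (h' : Code q u) :
    p ⊆ q ↔ t ⊆ u := by
  constructor
  · intro h1 s hs
    exact h'.mem.1 (h1 (h.mem.2 hs))
  · intro h1 w hw
    obtain ⟨s, hs, rfl⟩ := (h w).1 hw
    exact h'.mem.2 (h1 hs)

theorem Code.uniq {p : ZFSet.{0}} {t u : Set Nd} (h : Code p t) (h' : Code p u) : t = u :=
  Set.Subset.antisymm ((h.sub h').1 fun _ h => h) ((h'.sub h).1 fun _ h => h)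

theorem IsPerfect.code {p : ZFSet.{0}} (h : IsPerfect p) : Code p {s | seq s ∈ p} := by
  intro w
  constructor
  · intro hw
    obtain ⟨s, rfl⟩ := isSeq_iff.1 (h.seqs w hw)
    exact ⟨s, hw, rfl⟩
  · rintro ⟨s, hs, rfl⟩
    exact hs

theorem Code.perfect {p : ZFSet.{0}} {t : Set Nd} (h : Code p t) : IsPerfect p ↔ PT t := by
  constructor
  · intro hp
    have hdc : DC t := fun b s hs => h.mem.1 (hp.closed _ (h.mem.2 hs) _ (isSeq_iff.2 ⟨s, rfl⟩)
      (seq_sub.2 (List.suffix_cons b s)))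
    refine ⟨?_, hdc, fun s hs => ?_⟩
    · obtain ⟨w, hw⟩ := hp.nonempty
      obtain ⟨s, hs, rfl⟩ := (h w).1 hw
      exact hdc.sfx List.nil_suffix hs
    · obtain ⟨w, hw, v, hv, h1, h2, h3, h4⟩ := hp.split _ (h.mem.2 hs)
      obtain ⟨a, ha, rfl⟩ := (h w).1 hw
      obtain ⟨b, hb, rfl⟩ := (h v).1 hv
      rw [seq_sub] at h1 h2 h3 h4
      exact ⟨a, ha, b, hb, h1, h2, h3, h4⟩
  · intro ht
    refine ⟨⟨_, h.mem.2 ht.ne⟩, fun w hw => ?_, fun w hw v hv hvw => ?_, fun w hw => ?_⟩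
    · obtain ⟨s, hs, rfl⟩ := (h w).1 hw
      exact isSeq_iff.2 ⟨s, rfl⟩
    · obtain ⟨s, hs, rfl⟩ := (h w).1 hw
      obtain ⟨u, rfl⟩ := isSeq_iff.1 hv
      exact h.mem.2 (ht.DC.sfx (seq_sub.1 hvw) hs)
    · obtain ⟨s, hs, rfl⟩ := (h w).1 hw
      obtain ⟨a, ha, b, hb, h1, h2, h3, h4⟩ := ht.sp s hs
      exact ⟨_, h.mem.2 ha, _, h.mem.2 hb, seq_sub.2 h1, seq_sub.2 h2, fun h => h3 (seq_sub.1 h),
        fun h => h4 (seq_sub.1 h)⟩

/-! ### Inside a model -/

section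

variable {M : Set ZFSet.{0}} (hM : IsZF M)

include hM

theorem seq_memM (s : Nd) : seq s ∈ M := by
  induction s with
  | nil => exact hM.empty_mem
  | cons b s ih => exact hM.insert_mem (hM.pair_mem (hM.nat_mem _) (hM.nat_mem _)) ih

theorem exists_seqs : ∃ Q ∈ M, ∀ s, s ∈ Q ↔ IsSeq s := by
  have hB := hM.base
  have hom := hM.infinity
  have h2 := hM.nat_mem 2
  obtain ⟨PW, hPW, hPW'⟩ := hM.power _ (hM.prod_mem hom h2)
  have hd : Dfn M M fun w : Fin 1 → ZFSet.{0} => ∃ n ∈ ZFSet.omega,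
      ZFSet.IsFunc n (nat 2) (w 0) := by
    (repeat' first
      | assumption
      | exact DfnF.proj _
      | exact DfnF.const (by assumption)
      | apply hB.isFunc'
      | apply hB.bex)
  refine ⟨_, hM.sep_mem (Q := fun z => ∃ n ∈ ZFSet.omega, ZFSet.IsFunc n (nat 2) z) hd hPW,
    fun s => ?_⟩
  rw [ZFSet.mem_sep]
  constructor
  · exact fun h => h.2
  · intro h
    refine ⟨(hPW' _).2 ⟨?_, fun z hz => ?_⟩, h⟩
    · obtain ⟨u, rfl⟩ := isSeq_iff.1 h
      exact seq_memM hM u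
    · obtain ⟨n, hn, h1⟩ := h
      obtain ⟨a, ha, b, hb, rfl⟩ := ZFSet.mem_prod.1 (h1.1 hz)
      obtain ⟨m, rfl⟩ := mem_omega_iff.1 hn
      obtain ⟨j, -, rfl⟩ := mem_nat'.1 ha
      exact ZFSet.pair_mem_prod.2 ⟨mem_omega_iff.2 ⟨j, rfl⟩, hb⟩

theorem exists_perfs : ∃ S ∈ M, ∀ p, p ∈ S ↔ p ∈ M ∧ IsPerfect p := by
  have hB := hM.base
  obtain ⟨Q, hQ, hQ'⟩ := exists_seqs hM
  obtain ⟨PQ, hPQ, hPQ'⟩ := hM.power _ hQ
  have hd : Dfn M M fun w : Fin 1 → ZFSet.{0} => (∃ s ∈ w 0, s = s) ∧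
      (∀ s ∈ w 0, ∀ t ∈ Q, t ⊆ s → t ∈ w 0) ∧
      ∀ s ∈ w 0, ∃ t ∈ w 0, ∃ u ∈ w 0, s ⊆ t ∧ s ⊆ u ∧ ¬ t ⊆ u ∧ ¬ u ⊆ t := by
    (repeat' first
      | assumption
      | exact DfnF.proj _
      | exact DfnF.const (by assumption)
      | apply Dfn.not | apply Dfn.and | apply Dfn.imp
      | apply hB.subset'
      | apply hB.bex | apply hB.ball
      | apply Dfn.eq | apply Dfn.mem)
  refine ⟨_, hM.sep_mem (Q := fun z => (∃ s ∈ z, s = s) ∧
      (∀ s ∈ z, ∀ t ∈ Q, t ⊆ s → t ∈ z) ∧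
      ∀ s ∈ z, ∃ t ∈ z, ∃ u ∈ z, s ⊆ t ∧ s ⊆ u ∧ ¬ t ⊆ u ∧ ¬ u ⊆ t) hd hPQ,
    fun p => ?_⟩
  rw [ZFSet.mem_sep, hPQ']
  constructor
  · rintro ⟨⟨h1, h2⟩, ⟨s, hs, -⟩, h4, h5⟩
    exact ⟨h1, ⟨s, hs⟩, fun s hs => (hQ' s).1 (h2 hs), fun s hs t ht => h4 s hs t ((hQ' t).2 ht), h5⟩
  · rintro ⟨h1, ⟨s, hs⟩, h3, h4, h5⟩
    exact ⟨⟨h1, fun s hs => (hQ' s).2 (h3 s hs)⟩, ⟨s, hs, rfl⟩,
      fun s hs t ht => h4 s hs t ((hQ' t).1 ht), h5⟩

end

end Pool.Agent.K7.H48.SK
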