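import Pool.Agent.K7.H48.SK.Sp
import Pool.Agent.K7.H48.SK.Seq

/-!
# Trees with generic labels: names and genericity
-/

set_option autoImplicit false
set_option linter.unusedSectionVars false
set_option linter.unusedVariables false

namespace Pool.Agent.K7.H48.SK

open Pool.Agent.W868 Pool.Agent.W868.PName Pool.Agent.R598.SY
open ZFSet (pair)

/-- The label of the node `s`. -/
def cv (k : ℕ) (a : I k) (s : Nd) (x : X) : Nd := x (J.tr k a s)

/-- The data for a tree and its labels. -/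
structure Ix (k : ℕ) where
  δ : I k
  B : Nd → Set X
  hB : ∀ s, Op (B s)
  hD : ∀ s, Det k (B s)
  h : Nd → Equiv.Perm Nd

theorem op_fin {α : Type} {L : Finset α} {f : α → Set X} (h : ∀ i ∈ L, Op (f i)) :
    Op {x | ∀ i ∈ L, x ∈ f i} := by
  classical
  induction L using Finset.induction_on with
  | empty => exact fun x _ => ⟨∅, fun _ _ i hi => absurd hi (Finset.notMem_empty _)⟩
  | insert a L _ ih =>
    have h1 := (ih fun i hi => h i (Finset.mem_insert_of_mem hi)).inter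
      (h a (Finset.mem_insert_self _ _))
    have e : {x : X | ∀ i ∈ insert a L, x ∈ f i} = {x | ∀ i ∈ L, x ∈ f i} ∩ f a := by
      ext x
      constructor
      · exact fun h => ⟨fun i hi => h i (Finset.mem_insert_of_mem hi),
          h a (Finset.mem_insert_self _ _)⟩
      · rintro ⟨h1, h2⟩ i hi
        rcases Finset.mem_insert.1 hi with rfl | hi
        · exact h2
        · exact h1 i hi
    rw [e]
    exact h1

section

variable {k : ℕ}

/-- The points such that the tree and the labels at the node `s` are given by `t` and `T`. -/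
def At (i : Ix k) (t : Set Nd) (T : Nd → Nd) (s : Nd) : Set X :=
  {x | (s ∈ t → x ∈ i.B s) ∧ (s ∉ t → x ∈ ext (i.B s)) ∧ i.h s (cv k i.δ s x) = T s}

theorem op_lb (i : Ix k) (s l : Nd) : Op {x | i.h s (cv k i.δ s x) = l} :=
  op_coord (J.tr k i.δ s) {v | i.h s v = l}

theorem op_At (i : Ix k) (t : Set Nd) (T : Nd → Nd) (s : Nd) : Op (At i t T s) := by
  by_cases h : s ∈ t
  · have e : At i t T s = i.B s ∩ {x | i.h s (cv k i.δ s x) = T s} := by
      ext x
      exact ⟨fun h1 => ⟨h1.1 h, h1.2.2⟩, fun h1 => ⟨fun _ => h1.1, fun h2 => absurd h h2, h1.2⟩⟩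
    rw [e]
    exact (i.hB s).inter (op_lb i s _)
  · have e : At i t T s = ext (i.B s) ∩ {x | i.h s (cv k i.δ s x) = T s} := by
      ext x
      exact ⟨fun h1 => ⟨h1.2.1 h, h1.2.2⟩, fun h1 => ⟨fun h2 => absurd h2 h, fun _ => h1.1, h1.2⟩⟩
    rw [e]
    exact (op_ext _).inter (op_lb i s _)

theorem At.agree {i : Ix k} {t t' : Set Nd} {T T' : Nd → Nd} {s : Nd} {x : X}
    (h : x ∈ At i t T s) (h' : x ∈ At i t' T' s) : (s ∈ t ↔ s ∈ t') ∧ T s = T' s := by
  refine ⟨⟨fun h1 => ?_, fun h1 => ?_⟩, h.2.2.symm.trans h'.2.2⟩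
  · by_contra h2
    exact not_ext (h.1 h1) (h'.2.1 h2)
  · by_contra h2
    exact not_ext (h'.1 h1) (h.2.1 h2)

/-- The points for which a finite part of the tree and the labels guarantees `Φ`. -/
def O1 (i : Ix k) (Φ : Set Nd → (Nd → Nd) → Prop) : Set X :=
  {x | ∃ (t : Set Nd) (T : Nd → Nd) (L : Finset Nd), (∀ s ∈ L, x ∈ At i t T s) ∧
    ∀ t' T', Ag L t t' T T' → Φ t' T'}

theorem op_O1 (i : Ix k) (Φ : Set Nd → (Nd → Nd) → Prop) : Op (O1 i Φ) := by
  rintro x ⟨t, T, L, h1, h2⟩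
  obtain ⟨F, hF⟩ := op_fin (L := L) (f := At i t T) (fun s _ => op_At i t T s) x h1
  exact ⟨F, fun y hy => ⟨t, T, L, hF hy, h2⟩⟩

variable {π : Pkg P}

/-- The tree and the labels are `t` and `T`. -/
def Act (π : Pkg P) (i : Ix k) (t : Set Nd) (T : Nd → Nd) : Prop := ∀ s, Tr π (At i t T s)

theorem tr_O1 {i : Ix k} {t : Set Nd} {T : Nd → Nd} (h : Act π i t T)
    {Φ : Set Nd → (Nd → Nd) → Prop}
    (hΦ : ∃ L : Finset Nd, ∀ t' T', Ag L t t' T T' → Φ t' T') : Tr π (O1 i Φ) := by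
  obtain ⟨L, hL⟩ := hΦ
  exact (Tr.fin (L := L) fun s _ => h s).mono fun x hx => ⟨t, T, L, hx, hL⟩

theorem merge {L L0 : Finset Nd} {t t0 : Set Nd} {T T0 : Nd → Nd}
    (h : ∀ s ∈ L, s ∈ L0 → (s ∈ t ↔ s ∈ t0) ∧ T s = T0 s) :
    ∃ t'' T'', Ag L t t'' T T'' ∧ Ag L0 t0 t'' T0 T'' := by
  classical
  refine ⟨{s | if s ∈ L0 then s ∈ t0 else s ∈ t}, fun s => if s ∈ L0 then T0 s else T s,
    fun s hs => ?_, fun s hs => ?_⟩
  · by_cases h0 : s ∈ L0
    · have h1 := h s hs h0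
      simpa [h0] using h1
    · simp [h0]
  · simp [hs]

theorem not_tr_O1 {i : Ix k} {t : Set Nd} {T : Nd → Nd} (h : Act π i t T)
    {Φ : Set Nd → (Nd → Nd) → Prop}
    (hΦ : ∃ L : Finset Nd, ∀ t' T', Ag L t t' T T' → ¬ Φ t' T') : ¬ Tr π (O1 i Φ) := by
  intro h1
  obtain ⟨L, hL⟩ := hΦ
  obtain ⟨x, hx, t0, T0, L0, h2, h3⟩ := ((Tr.fin (L := L) fun s _ => h s).inter h1).ne
  obtain ⟨t'', T'', h4, h5⟩ := merge (L := L) (L0 := L0) (t := t) (t0 := t0) (T := T) (T0 := T0)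
    fun s hs hs0 => At.agree (hx s hs) (h2 s hs0)
  exact hL t'' T'' h4 (h3 t'' T'' h5)

/-! ### Two trees -/

/-- A finite part of two trees and their labels that guarantees `Φ`. -/
structure W2 (Φ : Set Nd → (Nd → Nd) → Set Nd → (Nd → Nd) → Prop) where
  t₁ : Set Nd
  T₁ : Nd → Nd
  t₂ : Set Nd
  T₂ : Nd → Nd
  L : Finset Nd
  good : ∀ t₁' T₁' t₂' T₂', Ag L t₁ t₁' T₁ T₁' → Ag L t₂ t₂' T₂ T₂' → Φ t₁' T₁' t₂' T₂'

/-- The open sets. -/
def O2 (i₁ i₂ : Ix k) (Φ : Set Nd → (Nd → Nd) → Set Nd → (Nd → Nd) → Prop) (u : W2 Φ) : Set X :=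
  {x | ∀ s ∈ u.L, x ∈ At i₁ u.t₁ u.T₁ s ∩ At i₂ u.t₂ u.T₂ s}

theorem op_O2 (i₁ i₂ : Ix k) (Φ : Set Nd → (Nd → Nd) → Set Nd → (Nd → Nd) → Prop) (u : W2 Φ) :
    Op (O2 i₁ i₂ Φ u) := op_fin fun s _ => (op_At i₁ _ _ s).inter (op_At i₂ _ _ s)

open Classical in
/-- Change the labels of the long nodes. -/
noncomputable def upd (k : ℕ) (a : I k) (N : ℕ) (f : Nd → Nd) (y : X) : X := fun j =>
  match j with
  | .co m n => y (.co m n)
  | .tr m b s => if J.tr m b s = J.tr k a s ∧ N < s.length then (f s : Nd) else y (.tr m b s)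

theorem upd_lv {a : I k} {N : ℕ} {f : Nd → Nd} {y : X} {j : J} (hj : lv j < k) :
    upd k a N f y j = y j := by
  cases j with
  | co m n => rfl
  | tr m b s =>
    refine if_neg ?_
    rintro ⟨h, -⟩
    injection h with h1 _ _
    subst h1
    exact lt_irrefl _ hj

theorem upd_long {a : I k} {N : ℕ} {f : Nd → Nd} {y : X} {s : Nd} (hs : N < s.length) :
    cv k a s (upd k a N f y) = f s := if_pos ⟨rfl, hs⟩

theorem upd_short {a : I k} {N : ℕ} {f : Nd → Nd} {y : X} {s : Nd} (hs : ¬ N < s.length) :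
    cv k a s (upd k a N f y) = cv k a s y := if_neg fun h => hs h.2

theorem upd_other {a b : I k} {N : ℕ} {f : Nd → Nd} {y : X} {s : Nd} (hab : b ≠ a) :
    cv k b s (upd k a N f y) = cv k b s y := by
  refine if_neg ?_
  rintro ⟨h, -⟩
  injection h with _ h2 _
  exact hab h2

theorem upd_nb {a : I k} {N : ℕ} {f : Nd → Nd} {y : X} {j : J}
    (hj : ∀ s, j = J.tr k a s → s.length ≤ N) : upd k a N f y j = y j := by
  cases j with
  | co m n => rfl
  | tr m b s =>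
    refine if_neg ?_
    rintro ⟨h, h1⟩
    have := hj s h
    omega

/-- Genericity of the labels of the first tree over the trees and the labels of the second tree. -/
theorem gen2 {i₁ i₂ : Ix k} {Φ : Set Nd → (Nd → Nd) → Set Nd → (Nd → Nd) → Prop}
    (hN : dN (O2 i₁ i₂ Φ) ∈ π.N) (hb : ∀ n, bN (π.g n) ∈ π.N) (hδ : i₂.δ ≠ i₁.δ)
    {t₁ t₂ : Set Nd} {T₁ T₂ : Nd → Nd} (h₁ : Act π i₁ t₁ T₁) (h₂ : Act π i₂ t₂ T₂)
    (hΦ : ∀ N, ∃ T' : Nd → Nd, (∀ s, s.length ≤ N → T' s = T₁ s) ∧ ∃ L : Finset Nd,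
      ∀ t₁' T₁' t₂' T₂', Ag L t₁ t₁' T' T₁' → Ag L t₂ t₂' T₂ T₂' → Φ t₁' T₁' t₂' T₂') :
    Φ t₁ T₁ t₂ T₂ := by
  classical
  rcases wit' hN (op_O2 i₁ i₂ Φ) with ⟨u, hu⟩ | ⟨k₀, hk₀⟩
  · refine u.good _ _ _ _ (fun s hs => ?_) fun s hs => ?_
    · obtain ⟨x, hx, hx'⟩ := (hu.inter (h₁ s)).ne
      exact At.agree (hx s hs).1 hx'
    · obtain ⟨x, hx, hx'⟩ := (hu.inter (h₂ s)).ne
      exact At.agree (hx s hs).2 hx'
  · exfalso
    obtain ⟨x₀, F, hF, hF'⟩ := exists_nb (hb k₀)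
    obtain ⟨N, hN⟩ : ∃ N, ∀ s, J.tr k i₁.δ s ∈ F → s.length ≤ N := by
      obtain ⟨N, hN⟩ := ((F.preimage (fun s => J.tr k i₁.δ s) (fun a _ b _ h => by
        injection h)).image List.length).finite_toSet.bddAbove
      exact ⟨N, fun s hs => hN (Finset.mem_coe.2 (Finset.mem_image_of_mem _
        (Finset.mem_preimage.2 hs)))⟩
    obtain ⟨T', hT', L, hL⟩ := hΦ N
    obtain ⟨y, ⟨hy0, hy1⟩, hy2⟩ := ((hF'.inter (Tr.fin (L := L) fun s _ => h₁ s)).inter
      (Tr.fin (L := L) fun s _ => h₂ s)).ne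
    let f : Nd → Nd := fun s => (i₁.h s).symm (T' s)
    have hlv : ∀ j, lv j < k → upd k i₁.δ N f y j = y j := fun j hj => upd_lv hj
    have h4 : upd k i₁.δ N f y ∈ (π.g k₀).1 := by
      refine hF fun j hj => ?_
      rw [upd_nb, hy0 j hj]
      rintro s rfl
      exact hN s hj
    have h5 : upd k i₁.δ N f y ∈ O2 i₁ i₂ Φ ⟨t₁, T', t₂, T₂, L, hL⟩ := by
      intro s hs
      constructor
      · obtain ⟨a1, a2, a3⟩ := hy1 s hs
        refine ⟨fun h => i₁.hD s _ (a1 h) _ hlv, fun h => (i₁.hD s).ext _ (a2 h) _ hlv, ?_⟩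
        by_cases h6 : N < s.length
        · rw [upd_long h6]
          exact (i₁.h s).apply_symm_apply _
        · rw [upd_short h6]
          change _ = T' s
          rw [hT' s (by omega)]
          exact a3
      · obtain ⟨a1, a2, a3⟩ := hy2 s hs
        refine ⟨fun h => i₂.hD s _ (a1 h) _ hlv, fun h => (i₂.hD s).ext _ (a2 h) _ hlv, ?_⟩
        rw [upd_other hδ]
        exact a3
    have h6 : upd k i₁.δ N f y ∈ (π.g k₀).1 ∩ O2 i₁ i₂ Φ ⟨t₁, T', t₂, T₂, L, hL⟩ := ⟨h4, h5⟩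
    rw [hk₀] at h6
    exact h6

/-! ### The action and the names -/

/-- The action on the data. -/
def Ix.mv (g : G) (i : Ix k) : Ix k where
  δ := i.δ
  B := fun s => im g (i.B s)
  hB := fun s => op_im g (i.hB s)
  hD := fun s => (i.hD s).im' g
  h := fun s => (g (J.tr k i.δ s) : Equiv.Perm Nd).symm.trans (i.h s)

theorem im_At (g : G) (i : Ix k) (t : Set Nd) (T : Nd → Nd) (s : Nd) :
    im g (At i t T s) = At (i.mv g) t T s := by
  ext x
  refine and_congr Iff.rfl (and_congr (imp_congr Iff.rfl ?_) Iff.rfl)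
  change x ∈ im g (ext (i.B s)) ↔ _
  rw [im_ext]
  rfl

theorem im_O1 (g : G) (i : Ix k) (Φ : Set Nd → (Nd → Nd) → Prop) :
    im g (O1 i Φ) = O1 (i.mv g) Φ := by
  ext x
  refine exists_congr fun t => exists_congr fun T => exists_congr fun L => and_congr_left fun _ =>
    forall₂_congr fun s _ => ?_
  rw [← im_At]
  rfl

theorem Ix.mv_fix {g : G} (hg : g ∈ fix (k + 1)) (i : Ix k) : i.mv g = i := by
  have h1 : ∀ s, im g (i.B s) = i.B s := fun s => (i.hD s).im (fix_mono (Nat.le_succ k) hg)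
  have h2 : ∀ s, (g (J.tr k i.δ s) : Equiv.Perm Nd) = 1 := fun s => hg _ (Nat.lt_succ_self k)
  obtain ⟨δ, B, hB, hD, h⟩ := i
  unfold Ix.mv
  congr 1
  · funext s
    exact h1 s
  · funext s
    have h3 := h2 s
    simp only at h3 ⊢
    rw [h3]
    rfl

/-- The name for the tree. -/
noncomputable def tN (i : Ix k) : PName P := fN Nd (fun s => check (seq s)) i.B

/-- The name for the subtree given by the labels. -/
noncomputable def FN (i : Ix k) : PName P :=
  fN Nd (fun e => check (seq e)) fun e => O1 i fun t T => e ∈ Ft t T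

/-- The ordinal of an index. -/
noncomputable def od (a : I k) : Ordinal.{0} := Ordinal.typein (α := I k) (· < ·) a

/-- The name for a member of the family. -/
noncomputable def zE (i : Σ k, Ix k) : PName P :=
  opN (opN (check (nat i.1)) (check (od i.2.δ).toZFSet)) (opN (tN i.2) (FN i.2))

/-- The name for the family. -/
noncomputable def EN : PName P := fN (Σ k, Ix k) zE fun _ => Set.univ

theorem act_tN (g : G) (i : Ix k) (p : P) : Feq (act (sys.ac g) (tN i)) (tN (i.mv g)) p :=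
  act_fN g p (fun s p => act_ck g _ p) fun s => rfl

theorem act_FN (g : G) (i : Ix k) (p : P) : Feq (act (sys.ac g) (FN i)) (FN (i.mv g)) p :=
  act_fN g p (fun s p => act_ck g _ p) fun s => im_O1 g i _

theorem act_zE (g : G) (i : Σ k, Ix k) (p : P) :
    Feq (act (sys.ac g) (zE i)) (zE ⟨i.1, i.2.mv g⟩) p := by
  unfold zE
  rw [act_opN (sys.top g), act_opN (sys.top g), act_opN (sys.top g)]
  exact feq_opN (feq_opN (act_ck g _ p) (act_ck g _ p)) (feq_opN (act_tN g _ p) (act_FN g _ p))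

theorem fix_tN (i : Ix k) : sys.Fix (fix (k + 1)) (tN i) := fun g hg p => by
  have h := act_tN g i p
  rwa [i.mv_fix hg] at h

theorem fix_FN (i : Ix k) : sys.Fix (fix (k + 1)) (FN i) := fun g hg p => by
  have h := act_FN g i p
  rwa [i.mv_fix hg] at h

theorem hs_tN (i : Ix k) : sys.HS (tN i) := hs_fN (fix_tN i) fun _ => sys.hs_check _

theorem hs_FN (i : Ix k) : sys.HS (FN i) := hs_fN (fix_FN i) fun _ => sys.hs_check _

theorem hs_zE (i : Σ k, Ix k) : sys.HS (zE i) :=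
  sys.hs_opN (sys.hs_opN (sys.hs_check _) (sys.hs_check _)) (sys.hs_opN (hs_tN _) (hs_FN _))

theorem hs_EN : sys.HS EN := by
  refine hs_fN (θ := 0) (fix_fN fun g _ i => ⟨⟨i.1, i.2.mv g⟩, fun p => act_zE g i p, rfl⟩) hs_zE

end

/-! ### The values of the names -/

section

variable (π : Pkg P)

theorem seq_Z (s : Nd) : seq s ∈ π.Z := by
  induction s with
  | nil => exact π.empty_Z
  | cons b s ih => exact π.insert_Z (π.pair_mem_Z (π.nat_Z _) (π.nat_Z _)) ih

theorem hat_seq (s : Nd) : π.hat (seq s) = seq s := by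
  induction s with
  | nil => exact π.hat_empty
  | cons b s ih =>
    rw [seq, π.hat_insert (π.pair_mem_Z (π.nat_Z _) (π.nat_Z _)), π.hat_pair (π.nat_Z _) (π.nat_Z _),
      π.hat_nat, π.hat_nat, ih]

variable {π}

theorem code_fN {O : Nd → Set X} {t : Set Nd} (h : ∀ s, Tr π (O s) ↔ s ∈ t) :
    Code (π.val (fN Nd (fun s => check (seq s)) O)) t := by
  intro w
  rw [val_fN]
  constructor
  · rintro ⟨s, -, h1, rfl⟩
    exact ⟨s, (h s).1 h1, hat_seq π s⟩
  · rintro ⟨s, hs, rfl⟩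
    exact ⟨s, seq_Z π s, (h s).2 hs, (hat_seq π s).symm⟩

variable {k : ℕ}

theorem code_tN {i : Ix k} {t : Set Nd} {T : Nd → Nd} (h : Act π i t T) :
    Code (π.val (tN i)) t := by
  refine code_fN fun s => ⟨fun h1 => ?_, fun h1 => (h s).mono fun x hx => hx.1 h1⟩
  by_contra h2
  exact not_tr_ext h1 ((h s).mono fun x hx => hx.2.1 h2)

theorem code_FN {i : Ix k} {t : Set Nd} {T : Nd → Nd} (h : Act π i t T) (ht : PT t) :
    Code (π.val (FN i)) (Ft t T) := by
  refine code_fN fun s => ⟨fun h1 => ?_, fun h1 => tr_O1 h (ft_info h1)⟩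
  by_contra h2
  exact not_tr_O1 h (nft_info ht h2) h1

end

end Pool.Agent.K7.H48.SK
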