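import Pool.Agent.K7.H48.SK.Run

/-!
# Sacks forcing collapses `ω₁` over the model
-/

set_option autoImplicit false
set_option linter.unusedSectionVars false
set_option linter.unusedVariables false
set_option linter.unreachableTactic false
set_option linter.unusedTactic false

namespace Pool.Agent.K7.H48.SK

open Pool.Agent.W868 Pool.Agent.W868.PName Pool.Agent.R598.SY
open ZFSet (pair)

/-! ### Finite information for the properties of two trees -/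

theorem ph_some {t₁ t₂ : Set Nd} {T₁ T₂ : Nd → Nd} (h₁ : PT t₁) {a c : Nd} (hc : c ∈ t₂)
    (hac : a <:+ c) (hn : c ∉ Ft t₁ T₁) : ∃ L : Finset Nd, ∀ t₁' T₁' t₂' T₂',
      Ag L t₁ t₁' T₁ T₁' → Ag L t₂ t₂' T₂ T₂' → Ph (some a) t₁' T₁' t₂' T₂' := by
  classical
  obtain ⟨L, hL⟩ := nft_info h₁ hn
  refine ⟨insert c L, fun t₁' T₁' t₂' T₂' a1 a2 => ⟨c, ?_, hac, ?_⟩⟩
  · exact (a2 c (Finset.mem_insert_self _ _)).1.1 hc
  · exact hL _ _ (a1.mono (Finset.subset_insert _ _))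

theorem ph_none {t₁ t₂ : Set Nd} {T₁ T₂ : Nd → Nd} (h₁ : PT t₁) (h₂ : PT t₂) {n : ℕ}
    (hn : ∀ e : Nd, e.length = n → e ∈ Ft t₁ T₁ → e ∉ Ft t₂ T₂) : ∃ L : Finset Nd,
      ∀ t₁' T₁' t₂' T₂', Ag L t₁ t₁' T₁ T₁' → Ag L t₂ t₂' T₂ T₂' → Ph none t₁' T₁' t₂' T₂' := by
  classical
  have h3 : ∀ e : Nd, e.length = n → ∃ L : Finset Nd, ∀ t₁' T₁' t₂' T₂',
      Ag L t₁ t₁' T₁ T₁' → Ag L t₂ t₂' T₂ T₂' → e ∈ Ft t₁' T₁' → e ∉ Ft t₂' T₂' := by
    intro e he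
    by_cases h4 : e ∈ Ft t₁ T₁
    · obtain ⟨L, hL⟩ := nft_info h₂ (hn e he h4)
      exact ⟨L, fun t₁' T₁' t₂' T₂' _ a2 _ => hL _ _ a2⟩
    · obtain ⟨L, hL⟩ := nft_info h₁ h4
      exact ⟨L, fun t₁' T₁' t₂' T₂' a1 _ h5 => absurd h5 (hL _ _ a1)⟩
  choose! f hf using h3
  refine ⟨(List.finite_length_eq Bool n).toFinset.biUnion f, fun t₁' T₁' t₂' T₂' a1 a2 =>
    ⟨n, fun e he => ?_⟩⟩
  have h5 : f e ⊆ (List.finite_length_eq Bool n).toFinset.biUnion f :=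
    Finset.subset_biUnion_of_mem f ((List.finite_length_eq Bool n).mem_toFinset.2 he)
  exact hf e he _ _ _ _ (a1.mono h5) (a2.mono h5)

theorem PT.exists_len {t : Set Nd} (h : PT t) (n : ℕ) : ∃ e ∈ t, e.length = n := by
  obtain ⟨y, -, -, h3⟩ := exists_branch h h.ne
  obtain ⟨e, he, -, hn, -⟩ := h3 n
  refine ⟨e.drop (e.length - n), h.DC.sfx (List.drop_suffix _ _) he, ?_⟩
  rw [List.length_drop]
  omega

/-! ### The family -/

section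

variable {π : Pkg P} (h : Good π)

include h

/-- The tree and the labels of a member of the family. -/
theorem exists_act {i : Σ k, Ix k} (hz : zE i ∈ π.N) (hi : ix (zE i) = some i) :
    ∃ t T, Act π i.2 t T := by
  classical
  have h1 : ∀ s, uN (i.2.B s) ∈ π.N := fun s => by
    have h1 := h.r1 s _ hz
    unfold f1 at h1
    rw [hi] at h1
    exact h1
  have h2 : ∀ s, ∃ l, Tr π {x | i.2.h s (cv i.1 i.2.δ s x) = l} := fun s => by
    have h2 := h.r2 s _ hz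
    unfold f2 at h2
    rw [hi] at h2
    refine dns h2 (fun l => op_lb i.2 s l) fun U => ?_
    obtain ⟨x, hx⟩ := U.2.2
    exact ⟨_, x, hx, rfl⟩
  choose T hT using h2
  refine ⟨{s | Tr π (i.2.B s)}, T, fun s => ?_⟩
  rcases dec (h1 s) (i.2.hB s) with h3 | h3
  · exact (h3.inter (hT s)).mono fun x hx => ⟨fun _ => hx.1, fun h4 => absurd h3 h4, hx.2⟩
  · exact (h3.inter (hT s)).mono fun x hx => ⟨fun h4 => (not_tr_ext h4 h3).elim, fun _ => hx.1, hx.2⟩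

/-- The members of the family. -/
theorem mem_EN {w : ZFSet.{0}} (hw : w ∈ π.val EN) : ∃ i : Σ k, Ix k, zE i ∈ π.N ∧
    ix (zE i) = some i ∧ (od i.2.δ).toZFSet ∈ π.Z ∧
    w = pair (pair (nat i.1) (π.hat (od i.2.δ).toZFSet)) (pair (π.val (tN i.2)) (π.val (FN i.2))) := by
  unfold EN at hw
  obtain ⟨i₀, hi₀, -, rfl⟩ := val_fN.1 hw
  obtain ⟨i, hi, e⟩ := exists_ix i₀
  rw [e] at hi hi₀ ⊢
  have h1 := π.fst_mem hi₀
  have h2 := π.snd_mem hi₀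
  have h3 := π.snd_mem h1
  refine ⟨i, hi₀, hi, h3, ?_⟩
  unfold zE
  rw [π.val_opN h1 h2, π.val_opN (π.fst_mem h1) h3, π.val_opN (π.fst_mem h2) (π.snd_mem h2)]
  have e1 : π.val (check (nat i.1)) = nat i.1 := π.hat_nat i.1
  rw [e1]
  rfl

theorem mem_EN' {i : Σ k, Ix k} (hi : zE i ∈ π.N) :
    pair (pair (nat i.1) (π.hat (od i.2.δ).toZFSet)) (pair (π.val (tN i.2)) (π.val (FN i.2))) ∈
      π.val EN := by
  have h1 := π.fst_mem hi
  have h2 := π.snd_mem hi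
  have h3 := π.snd_mem h1
  unfold EN
  refine val_fN.2 ⟨i, hi, ⟨0, Set.subset_univ _⟩, ?_⟩
  unfold zE
  rw [π.val_opN h1 h2, π.val_opN (π.fst_mem h1) h3, π.val_opN (π.fst_mem h2) (π.snd_mem h2)]
  have e1 : π.val (check (nat i.1)) = nat i.1 := π.hat_nat i.1
  rw [e1]
  rfl

theorem EN_mem : π.val EN ∈ sys.Ms π := ⟨_, ⟨h.en, hs_EN⟩, rfl⟩

/-- The subtrees of the family are perfect. -/
theorem fam_perfect {k δ t b : ZFSet.{0}} (hw : pair (pair k δ) (pair t b) ∈ π.val EN)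
    (ht : IsPerfect t) : IsPerfect b ∧ b ⊆ t := by
  obtain ⟨i, hz, hi, hδ, e⟩ := mem_EN h hw
  obtain ⟨e1, e2⟩ := ZFSet.pair_inj.1 e
  obtain ⟨rfl, rfl⟩ := ZFSet.pair_inj.1 e1
  obtain ⟨rfl, rfl⟩ := ZFSet.pair_inj.1 e2
  obtain ⟨t0, T, hact⟩ := exists_act h hz hi
  have h1 := code_tN hact
  have h2 := h1.perfect.1 ht
  have h3 := code_FN hact h2
  exact ⟨h3.perfect.2 (ft_pt h2), (h3.sub h1).2 (ft_sub h2)⟩

/-- The subtrees of the family with different ordinals are incompatible. -/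
theorem fam_incomp {k δ t b δ' t' b' p : ZFSet.{0}} (hw : pair (pair k δ) (pair t b) ∈ π.val EN)
    (hw' : pair (pair k δ') (pair t' b') ∈ π.val EN) (ht : IsPerfect t) (ht' : IsPerfect t')
    (hp : IsPerfect p) (hpb : p ⊆ b) (hpb' : p ⊆ b') : δ = δ' := by
  obtain ⟨⟨m, i⟩, hz, hi, hδ, e⟩ := mem_EN h hw
  obtain ⟨⟨m', i'⟩, hz', hi', hδ', e'⟩ := mem_EN h hw'
  obtain ⟨e1, e2⟩ := ZFSet.pair_inj.1 e
  obtain ⟨rfl, rfl⟩ := ZFSet.pair_inj.1 e1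
  obtain ⟨rfl, rfl⟩ := ZFSet.pair_inj.1 e2
  obtain ⟨e1, e2⟩ := ZFSet.pair_inj.1 e'
  obtain ⟨e3, rfl⟩ := ZFSet.pair_inj.1 e1
  obtain ⟨rfl, rfl⟩ := ZFSet.pair_inj.1 e2
  obtain rfl := nat_injective e3
  obtain ⟨t0, T, hact⟩ := exists_act h hz hi
  obtain ⟨t0', T', hact'⟩ := exists_act h hz' hi'
  have h2 := (code_tN hact).perfect.1 ht
  have h2' := (code_tN hact').perfect.1 ht'
  have h3 := code_FN hact h2
  have h3' := code_FN hact' h2'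
  by_contra hne
  have hd : i.δ ≠ i'.δ := fun e => hne (by rw [e])
  have hN : ∀ o, dN (O2 i i' (Ph o)) ∈ π.N := fun o => by
    have h4 := h.r3 o _ hz _ hz'
    unfold f3 at h4
    rw [hi, hi'] at h4
    simp only [dite_true] at h4
    exact h4
  have hN' : ∀ o, dN (O2 i' i (Ph o)) ∈ π.N := fun o => by
    have h4 := h.r3 o _ hz' _ hz
    unfold f3 at h4
    rw [hi, hi'] at h4
    simp only [dite_true] at h4
    exact h4
  have h5 : ∀ a ∈ t0, ∃ c ∈ t0, a <:+ c ∧ c ∉ Ft t0' T' := by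
    intro a ha
    refine gen2 (Φ := Ph (some a)) (hN' (some a)) h.bn hd hact' hact fun N => ?_
    obtain ⟨S, hS, c, hc, hac, hn⟩ := comb2 h2' h2 ha T' N
    exact ⟨S, hS, ph_some h2' hc hac hn⟩
  have h6 : Ph none t0 T t0' T' := by
    refine gen2 (Φ := Ph none) (hN none) h.bn (Ne.symm hd) hact hact' fun N => ?_
    obtain ⟨S, hS, n, hn⟩ := comb1 h2 h5 T N
    exact ⟨S, hS, ph_none h2 h2' (n := n) fun e he => hn e he.ge⟩
  obtain ⟨n, hn⟩ := h6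
  have h7 := hp.code
  obtain ⟨e, he, hen⟩ := (h7.perfect.1 hp).exists_len n
  exact hn e hen ((h7.sub h3).1 hpb he) ((h7.sub h3').1 hpb' he)

/-- The family is dense for every ordinal. -/
theorem fam_dense {t δ : ZFSet.{0}} (ht : t ∈ sys.Ms π) (htp : IsPerfect t)
    (hδ : δ ∈ π.hat lam.toZFSet) :
    ∃ (k : ℕ) (b : ZFSet.{0}), pair (pair (nat k) δ) (pair t b) ∈ π.val EN := by
  obtain ⟨τ, ⟨hτ, hs⟩, rfl⟩ := ht
  obtain ⟨_, ⟨θ, rfl⟩, hfix⟩ := hs.sym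
  obtain ⟨y, hy, hyZ, rfl⟩ := π.mem_hat.1 hδ
  obtain ⟨β, hβ, rfl⟩ := Ordinal.mem_toZFSet_iff.1 hy
  obtain ⟨k, hk, hβk⟩ := lt_lam hβ θ
  obtain ⟨a, rfl⟩ := od_surj hβk
  have h1 : (∀ s, Det k (BV (check (seq s)) τ)) ∧
      ∃ b : I k, (check (od a).toZFSet : PName P) = check (od b).toZFSet :=
    ⟨fun s => (det_BV (fix_check _ _) hfix).mono hk, a, rfl⟩
  have h2 := h.r4 k τ hτ _ hyZ
  unfold f4 at h2
  rw [dif_pos h1] at h2
  have h3 : h1.2.choose = a :=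
    (od_inj (Ordinal.toZFSet_injective (check_injective h1.2.choose_spec))).symm
  have h4 := mem_EN' h h2
  simp only [h3] at h4
  have e : π.val (tN (⟨a, fun s => BV (check (seq s)) τ, fun _ => op_BV _ _, h1.1,
      fun _ => 1⟩ : Ix k)) = π.val τ := by
    ext w
    unfold tN
    rw [val_fN]
    have h5 : ∀ s, (seq s ∈ π.val τ ↔ Tr π (BV (check (seq s)) τ)) := by
      intro s
      rw [← val_mem (seq_Z π s) hτ]
      exact iff_of_eq (congrArg (· ∈ π.val τ) (hat_seq π s).symm)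
    constructor
    · rintro ⟨s, -, h6, rfl⟩
      have e : π.val (check (seq s)) = seq s := hat_seq π s
      rw [e]
      exact (h5 s).2 h6
    · intro hw
      obtain ⟨s, rfl⟩ := isSeq_iff.1 (htp.seqs w hw)
      exact ⟨s, seq_Z π s, (h5 s).1 hw, (hat_seq π s).symm⟩
  rw [e] at h4
  exact ⟨k, _, h4⟩

end

/-- Sacks forcing collapses the first uncountable ordinal of the model. -/
theorem collapse {π : Pkg P} (h : Good π) {H : ZFSet.{0}} (hH : IsGeneric (sys.Ms π) H)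
    {N' : Set ZFSet.{0}} (hN' : IsZF N') (hsub : sys.Ms π ⊆ N') (hHN : H ∈ N') :
    ∃ f ∈ N', IsInj (π.hat lam.toZFSet) ZFSet.omega f := by
  have hM := isZF h
  obtain ⟨S, hS, hS'⟩ := exists_perfs hM
  have hE := EN_mem h
  have hlam := hat_mem h h.lam
  obtain ⟨E, hEe⟩ : ∃ E, E = π.val EN := ⟨_, rfl⟩
  obtain ⟨Λ, hΛe⟩ : ∃ Λ, Λ = π.hat lam.toZFSet := ⟨_, rfl⟩
  rw [← hEe] at hE
  rw [← hΛe] at hlam ⊢
  -- the relation
  let Q : ZFSet.{0} → ZFSet.{0} → Prop := fun δ k =>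
    ∃ t ∈ S, ∃ b ∈ S, ∃ p ∈ H, pair (pair k δ) (pair t b) ∈ E ∧ p ⊆ b
  have hSN := hsub hS
  have hEN := hsub hE
  have hlN := hsub hlam
  have hom := hN'.infinity
  have hd : Dfn N' N' fun w : Fin 2 → ZFSet.{0} => (∃ t ∈ S, ∃ b ∈ S, ∃ p ∈ H,
      pair (pair (w 1) (w 0)) (pair t b) ∈ E ∧ p ⊆ b) ∧ ∀ m ∈ w 1, ¬ ∃ t ∈ S, ∃ b ∈ S, ∃ p ∈ H,
      pair (pair m (w 0)) (pair t b) ∈ E ∧ p ⊆ b := by
    have hB := hN'.base
    (repeat' first
      | assumption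
      | exact DfnF.proj _
      | exact DfnF.const (by assumption)
      | apply Dfn.not | apply Dfn.and
      | apply hB.subset'
      | apply hB.bex | apply hB.ball
      | apply Dfn.mem | apply hB.pair')
  obtain ⟨f, hf, hf1, hf2⟩ := hN'.rel_mem hlN hom (Q := fun δ k => Q δ k ∧ ∀ m ∈ k, ¬ Q δ m) hd
  -- density
  have hex : ∀ δ ∈ Λ, ∃ m : ℕ, Q δ (nat m) := by
    intro δ hδ
    have hδM := hM.trans _ hlam _ hδ
    have hom := hM.infinity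
    have hd : Dfn (sys.Ms π) (sys.Ms π) fun w : Fin 1 → ZFSet.{0} => ∃ k ∈ ZFSet.omega, ∃ t ∈ S,
        ∃ b ∈ S, pair (pair k δ) (pair t b) ∈ E ∧ w 0 ⊆ b := by
      have hB := hM.base
      (repeat' first
        | assumption
        | exact DfnF.proj _
        | exact DfnF.const (by assumption)
        | apply Dfn.and
        | apply hB.subset'
        | apply hB.bex
        | apply Dfn.mem | apply hB.pair')
    obtain ⟨p, hpD, hpH⟩ := hH.meets _ (hM.sep_mem (Q := fun z => ∃ k ∈ ZFSet.omega, ∃ t ∈ S,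
        ∃ b ∈ S, pair (pair k δ) (pair t b) ∈ E ∧ z ⊆ b) hd hS)
      (fun p hp => ((hS' p).1 (ZFSet.mem_sep.1 hp).1).2) (fun p hp hpp => by
        rw [hΛe] at hδ
        obtain ⟨k, b, hb⟩ := fam_dense h hp hpp hδ
        obtain ⟨h1, h2⟩ := fam_perfect h hb hpp
        rw [← hEe] at hb
        have hbM : b ∈ sys.Ms π := (hM.of_pair_mem (hM.of_pair_mem (hM.trans _ hE _ hb)).2).2
        exact ⟨b, ZFSet.mem_sep.2 ⟨(hS' b).2 ⟨hbM, h1⟩, nat k, mem_omega_iff.2 ⟨k, rfl⟩, p,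
          (hS' p).2 ⟨hp, hpp⟩, b, (hS' b).2 ⟨hbM, h1⟩, hb, fun _ h => h⟩, h2⟩)
    obtain ⟨-, k, hk, t, ht, b, hb, h1, h2⟩ := ZFSet.mem_sep.1 hpD
    obtain ⟨m, rfl⟩ := mem_omega_iff.1 hk
    exact ⟨m, t, ht, b, hb, p, hpH, h1, h2⟩
  refine ⟨f, hf, ⟨hf1, fun δ hδ => ?_⟩, fun δ δ' k h1 h2 => ?_⟩
  · classical
    have h1 := hex δ hδ
    refine ⟨nat (Nat.find h1), (hf2 _ _).2 ⟨hδ, mem_omega_iff.2 ⟨_, rfl⟩, Nat.find_spec h1,
      fun m hm => ?_⟩, fun w hw => ?_⟩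
    · obtain ⟨j, hj, rfl⟩ := mem_nat'.1 hm
      exact Nat.find_min h1 hj
    · obtain ⟨-, hw1, hw2, hw3⟩ := (hf2 _ _).1 hw
      obtain ⟨j, rfl⟩ := mem_omega_iff.1 hw1
      rcases lt_trichotomy j (Nat.find h1) with h3 | h3 | h3
      · exact absurd hw2 (Nat.find_min h1 h3)
      · rw [h3]
      · exact absurd (Nat.find_spec h1) (hw3 _ (mem_nat'.2 ⟨_, h3, rfl⟩))
  · obtain ⟨-, -, ⟨t, ht, b, hb, p, hp, h3, h4⟩, -⟩ := (hf2 _ _).1 h1
    obtain ⟨-, -, ⟨t', ht', b', hb', p', hp', h3', h4'⟩, -⟩ := (hf2 _ _).1 h2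
    obtain ⟨r, hr, hr1, hr2⟩ := hH.dir p hp p' hp'
    rw [hEe] at h3 h3'
    exact fam_incomp h h3 h3' ((hS' t).1 ht).2 ((hS' t').1 ht').2 (hH.sub r hr).2
      (fun z hz => h4 (hr1 hz)) (fun z hz => h4' (hr2 hz))

/-- Generic filters over countable models. -/
theorem exists_generic {N : Set ZFSet.{0}} (hN : IsZF N) (hc : N.Countable) {p : ZFSet.{0}}
    (hp : p ∈ N) (hpp : IsPerfect p) : ∃ H, IsGeneric N H ∧ p ∈ H := by
  obtain ⟨S, hS, hS'⟩ := exists_perfs hN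
  let Ds : Set ZFSet.{0} := {D | D ∈ N ∧ (∀ p ∈ D, IsPerfect p) ∧
    ∀ p ∈ N, IsPerfect p → ∃ q ∈ D, q ⊆ p}
  have hDs : Ds.Nonempty := ⟨S, hS, fun p hp => ((hS' p).1 hp).2, fun p hp hpp =>
    ⟨p, (hS' p).2 ⟨hp, hpp⟩, fun _ h => h⟩⟩
  obtain ⟨D, hD⟩ := (hc.mono fun D hD => hD.1 : Ds.Countable).exists_eq_range hDs
  have hD' : ∀ n, D n ∈ Ds := fun n => hD ▸ ⟨n, rfl⟩
  have hstep : ∀ (n : ℕ) (q : {q // q ∈ N ∧ IsPerfect q}), ∃ r : {q // q ∈ N ∧ IsPerfect q},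
      r.1 ∈ D n ∧ r.1 ⊆ q.1 := by
    rintro n ⟨q, hq, hqp⟩
    obtain ⟨h1, h2, h3⟩ := hD' n
    obtain ⟨r, hr, hrq⟩ := h3 q hq hqp
    exact ⟨⟨r, hN.trans _ h1 _ hr, h2 r hr⟩, hr, hrq⟩
  choose f hf hf' using hstep
  let F : ℕ → {q // q ∈ N ∧ IsPerfect q} := fun n => Nat.rec ⟨p, hp, hpp⟩ (fun n q => f n q) n
  have hF : ∀ n, F (n + 1) = f n (F n) := fun n => rfl
  have hmono : ∀ m n, m ≤ n → (F n).1 ⊆ (F m).1 := by
    intro m n hmn
    induction n, hmn using Nat.le_induction with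
    | base => exact fun _ h => h
    | succ n _ ih =>
      rw [hF]
      exact fun z hz => ih (hf' n (F n) hz)
  have hmem : ∀ q, q ∈ ZFSet.sep (fun q => ∃ n, (F n).1 ⊆ q) S ↔
      (q ∈ N ∧ IsPerfect q) ∧ ∃ n, (F n).1 ⊆ q := by
    intro q
    rw [ZFSet.mem_sep, hS']
  refine ⟨ZFSet.sep (fun q => ∃ n, (F n).1 ⊆ q) S, ⟨fun q hq => ((hmem q).1 hq).1, ?_, ?_, ?_⟩, ?_⟩
  · intro q hq r hr hrp hqr
    obtain ⟨-, n, hn⟩ := (hmem q).1 hq
    exact (hmem r).2 ⟨⟨hr, hrp⟩, n, fun z hz => hqr (hn hz)⟩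
  · intro q hq r hr
    obtain ⟨-, n, hn⟩ := (hmem q).1 hq
    obtain ⟨-, m, hm⟩ := (hmem r).1 hr
    exact ⟨(F (max m n)).1, (hmem _).2 ⟨(F _).2, _, fun _ h => h⟩,
      fun z hz => hn (hmono n _ (le_max_right _ _) hz),
      fun z hz => hm (hmono m _ (le_max_left _ _) hz)⟩
  · intro E hE h1 h2
    have h3 : E ∈ Ds := ⟨hE, h1, h2⟩
    rw [hD] at h3
    obtain ⟨n, rfl⟩ := h3
    refine ⟨(F (n + 1)).1, ?_, (hmem _).2 ⟨(F (n + 1)).2, n + 1, fun _ h => h⟩⟩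
    rw [hF]
    exact hf n (F n)
  · exact (hmem p).2 ⟨⟨hp, hpp⟩, 0, fun _ h => h⟩

/-- There is a countable transitive model of ZF in which `ω₁` is inaccessible to reals, and over
which Sacks forcing collapses `ω₁`. -/
theorem main : ∃ N : Set ZFSet.{0}, N.Countable ∧ IsZF N ∧ InaccessibleToReals N ∧
    (∀ p ∈ N, IsPerfect p → ∃ H, IsGeneric N H ∧ p ∈ H) ∧
    ∃ κ, IsAleph1 N κ ∧ ∀ H, IsGeneric N H → ∀ N' : Set ZFSet.{0}, IsZF N' → N ⊆ N' → H ∈ N' →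
      ∃ f ∈ N', IsInj κ ZFSet.omega f := by
  obtain ⟨π, h⟩ := exists_good
  have hc : (sys.Ms π).Countable := (π.cnt.mono fun _ h => h.1).image _
  exact ⟨_, hc, isZF h, inaccessible h, fun p hp hpp => exists_generic (isZF h) hc hp hpp, _,
    aleph1 h, fun H hH N' hN' hsub hHN => collapse h hH hN' hsub hHN⟩

end Pool.Agent.K7.H48.SK
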