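import Pool.Agent.K7.H48.SK.Card

/-!
# The model
-/

set_option autoImplicit false
set_option linter.unusedSectionVars false
set_option linter.unusedVariables false
set_option linter.unreachableTactic false
set_option linter.unusedTactic false

namespace Pool.Agent.K7.H48.SK

open Pool.Agent.W868 Pool.Agent.W868.PName Pool.Agent.R598.SY
open ZFSet (pair)

/-! ### Rules -/

/-- The rule for a unary operation. -/
def rl (f : PName P → PName P) : Rule P := fun q => match q with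
  | ⟨_, .mem s _, v, p⟩ => (f (tv v s), p)
  | q => (emp, q.p)

/-- The rule for a binary operation. -/
def rl2 (f : PName P → PName P → PName P) : Rule P := fun q => match q with
  | ⟨_, .mem s t, v, p⟩ => (f (tv v s) (tv v t), p)
  | q => (emp, q.p)

/-- The rule for the basic conditions. -/
def rB : Rule P := fun q => (bN q.p, q.p)

open Classical in
/-- The index of a member of the family. -/
noncomputable def ix (z : PName P) : Option (Σ k, Ix k) :=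
  if h : ∃ i, z = zE i then some h.choose else none

theorem exists_ix (i : Σ k, Ix k) : ∃ i', ix (zE i) = some i' ∧ zE i = zE i' := by
  have h : ∃ i', zE i = zE i' := ⟨i, rfl⟩
  refine ⟨h.choose, ?_, h.choose_spec⟩
  unfold ix
  rw [dif_pos h]

/-- The properties of two trees and their labels. -/
def Ph : Option Nd → Set Nd → (Nd → Nd) → Set Nd → (Nd → Nd) → Prop
  | some a => fun t₁ T₁ t₂ _ => ∃ c ∈ t₂, a <:+ c ∧ c ∉ Ft t₁ T₁
  | none => fun t₁ T₁ t₂ T₂ => ∃ n, ∀ e : Nd, e.length = n → e ∈ Ft t₁ T₁ → e ∉ Ft t₂ T₂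

/-- Membership in the tree. -/
noncomputable def f1 (s : Nd) (z : PName P) : PName P :=
  match ix z with
  | some i => uN (i.2.B s)
  | none => emp

/-- The label. -/
noncomputable def f2 (s : Nd) (z : PName P) : PName P :=
  match ix z with
  | some i => dN fun l : Nd => {x | i.2.h s (cv i.1 i.2.δ s x) = l}
  | none => emp

open Classical in
/-- Two trees. -/
noncomputable def f3 (o : Option Nd) (z z' : PName P) : PName P :=
  match ix z, ix z' with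
  | some i, some i' => if h : i.1 = i'.1 then dN (O2 (h ▸ i.2) i'.2 (Ph o)) else emp
  | _, _ => emp

open Classical in
/-- The member of the family given by a tree and an ordinal. -/
noncomputable def f4 (k : ℕ) (τ v : PName P) : PName P :=
  if h : (∀ s, Det k (BV (check (seq s)) τ)) ∧ ∃ a : I k, v = check (od a).toZFSet then
    zE ⟨k, h.2.choose, fun s => BV (check (seq s)) τ, fun _ => op_BV _ _, h.1, fun _ => 1⟩
  else emp

/-- The name for a real. -/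
noncomputable def f5 (τ : PName P) : PName P :=
  fN ℕ (fun n => check (nat n)) fun n => BV (check (nat n)) τ

/-- The pairs in a relation. -/
noncomputable def Bp {k : ℕ} (τ : PName P) (a : I k) (n : ℕ) : Set X :=
  BV (opN (check (od a).toZFSet) (check (nat n))) τ

open Classical in
/-- An ordinal that is not in the range. -/
noncomputable def gm (θ : ℕ) (τ : PName P) : I (θ + 1) :=
  if h : ∃ a : I (θ + 1), ∀ n, Bp τ a n ∩ ext (Oth (Bp τ) a n) = ∅ then h.choose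
  else Classical.arbitrary _

/-- Its name. -/
noncomputable def f6 (θ : ℕ) (τ : PName P) : PName P := check (od (gm θ τ)).toZFSet

/-- The other values. -/
noncomputable def f7 (θ m : ℕ) (τ : PName P) : PName P :=
  fN {b : I (θ + 1) // b ≠ gm θ τ} (fun b => check (od b.1).toZFSet) fun b => Bp τ b.1 m

/-- The `n`-th value of the collapse of `ω_k`. -/
def ccv (k n : ℕ) (x : X) : I k := x (J.co k n)

/-- The value `a` of the collapse is attained at `n` for the first time. -/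
def CO (k : ℕ) (a : I k) (n : ℕ) : Set X := {x | ccv k n x = a ∧ ∀ m < n, ccv k m x ≠ a}

theorem op_CO (k : ℕ) (a : I k) (n : ℕ) : Op (CO k a n) := by
  classical
  rintro x ⟨h1, h2⟩
  have h3 : ∀ m ≤ n, ∀ y ∈ nb x ((Finset.range (n + 1)).image (J.co k)), ccv k m y = ccv k m x :=
    fun m hm y hy => hy _ (Finset.mem_image_of_mem _ (Finset.mem_range.2 (by omega)))
  refine ⟨(Finset.range (n + 1)).image (J.co k), fun y hy => ⟨(h3 n le_rfl y hy).trans h1,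
    fun m hm e => h2 m hm ?_⟩⟩
  rw [← h3 m hm.le y hy]
  exact e

theorem CO_uniq {k : ℕ} {a : I k} {m n : ℕ} {x : X} (h : x ∈ CO k a m) (h' : x ∈ CO k a n) :
    m = n := by
  rcases lt_trichotomy m n with h1 | h1 | h1
  · exact absurd h.1 (h'.2 m h1)
  · exact h1
  · exact absurd h'.1 (h.2 n h1)

open Classical in
theorem dns_CO (k : ℕ) (a : I k) (U : P) : ∃ n, (U.1 ∩ CO k a n).Nonempty := by
  obtain ⟨x, hx⟩ := U.2.2
  obtain ⟨F, hF⟩ := U.2.1 x hx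
  obtain ⟨N, hN⟩ := ((F.preimage (fun n => J.co k n) (fun a _ b _ h => by
        injection h))).finite_toSet.bddAbove
  have h1 : J.co k (N + 1) ∉ F := fun h => by
    have h2 := hN (Finset.mem_coe.2 (Finset.mem_preimage.2 h))
    omega
  let y : X := fun j => if h : j = J.co k (N + 1) then (h ▸ (a : A (J.co k (N + 1)))) else x j
  have hy1 : ccv k (N + 1) y = a := dif_pos rfl
  have hy : y ∈ U.1 := hF fun j hj => dif_neg (by
    rintro rfl
    exact h1 hj)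
  have h2 : ∃ n, ccv k n y = a := ⟨_, hy1⟩
  exact ⟨Nat.find h2, y, hy, Nat.find_spec h2, fun m hm => Nat.find_min h2 hm⟩

open Classical in
/-- The value is attained. -/
noncomputable def f8 (k : ℕ) (v : PName P) : PName P :=
  if h : ∃ a : I k, v = check (od a).toZFSet then dN (CO k h.choose) else emp

/-- The name for an injection from `ω_k` to `ω`. -/
noncomputable def CN (k : ℕ) : PName P :=
  fN (I k × ℕ) (fun t => opN (check (od t.1).toZFSet) (check (nat t.2))) fun t => CO k t.1 t.2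

/-- All the rules. -/
noncomputable def Rs : ℕ → Set (Rule P)
  | 0 => {rB}
  | 1 => sys.rules
  | 2 => ⋃ θ, (sysT θ).rules
  | 3 => Set.range fun s => rl (f1 s)
  | 4 => Set.range fun s => rl (f2 s)
  | 5 => Set.range fun o => rl2 (f3 o)
  | 6 => Set.range fun k => rl2 (f4 k)
  | 7 => {rl f5}
  | 8 => Set.range fun θ => rl (f6 θ)
  | 9 => Set.range fun t : ℕ × ℕ => rl (f7 t.1 t.2)
  | 10 => Set.range fun k => rl (f8 k)
  | _ => ∅

theorem cnt_Rs (n : ℕ) : (Rs n).Countable := by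
  match n with
  | 0 => exact Set.countable_singleton _
  | 1 =>
    change (sys.rules).Countable
    refine Set.Finite.countable ?_
    unfold Sys.rules
    exact Set.toFinite _
  | 2 =>
    refine Set.countable_iUnion fun θ => Set.Finite.countable ?_
    unfold Sys.rules
    exact Set.toFinite _
  | 3 => exact Set.countable_range _
  | 4 => exact Set.countable_range _
  | 5 => exact Set.countable_range _
  | 6 => exact Set.countable_range _
  | 7 => exact Set.countable_singleton _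
  | 8 => exact Set.countable_range _
  | 9 => exact Set.countable_range _
  | 10 => exact Set.countable_range _
  | _ + 11 => exact Set.countable_empty

/-- The constants. -/
noncomputable def Ns : ℕ → Set (PName P)
  | 0 => {EN}
  | 1 => Set.range CN
  | 2 => Set.range fun k => check (wo k).toZFSet
  | 3 => {check lam.toZFSet}
  | _ => ∅

theorem cnt_Ns (n : ℕ) : (Ns n).Countable := by
  match n with
  | 0 => exact Set.countable_singleton _
  | 1 => exact Set.countable_range _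
  | 2 => exact Set.countable_range _
  | 3 => exact Set.countable_singleton _
  | _ + 4 => exact Set.countable_empty

/-- The properties of the package. -/
structure Good (π : Pkg P) : Prop where
  cld : sys.Cld π
  cldT : ∀ θ, (sysT θ).Cld π
  bn : ∀ n, bN (π.g n) ∈ π.N
  en : EN ∈ π.N
  cn : ∀ k, CN k ∈ π.N
  wo : ∀ k, (wo k).toZFSet ∈ π.Z
  lam : lam.toZFSet ∈ π.Z
  r1 : ∀ s, ∀ z ∈ π.N, f1 s z ∈ π.N
  r2 : ∀ s, ∀ z ∈ π.N, f2 s z ∈ π.N
  r3 : ∀ o, ∀ z ∈ π.N, ∀ z' ∈ π.N, f3 o z z' ∈ π.N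
  r4 : ∀ k, ∀ z ∈ π.N, ∀ z' ∈ π.N, f4 k z z' ∈ π.N
  r5 : ∀ z ∈ π.N, f5 z ∈ π.N
  r6 : ∀ θ, ∀ z ∈ π.N, f6 θ z ∈ π.N
  r7 : ∀ θ m, ∀ z ∈ π.N, f7 θ m z ∈ π.N
  r8 : ∀ k, ∀ z ∈ π.N, f8 k z ∈ π.N

theorem exists_good : ∃ π, Good π := by
  obtain ⟨π, hA, -, hcl⟩ := exists_pkg (⋃ n, Rs n) (Set.countable_iUnion cnt_Rs)
    (⋃ n, Ns n) (Set.countable_iUnion cnt_Ns) ⊤
  have hN : ∀ n, ∀ a ∈ Ns n, a ∈ π.N := fun n a ha => hA (Set.mem_iUnion.2 ⟨n, ha⟩)
  have hR : ∀ n, ∀ ρ ∈ Rs n, ∀ q : Query P, q.In π.N π.C → (ρ q).1 ∈ π.N ∧ (ρ q).2 ∈ π.C :=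
    fun n ρ hρ => hcl ρ (Set.mem_iUnion.2 ⟨n, hρ⟩)
  have h1 : ∀ n f, rl f ∈ Rs n → ∀ z ∈ π.N, f z ∈ π.N := fun n f hf z hz =>
    (hR n _ hf _ (query2 hz hz (π.gC 0))).1
  have h2 : ∀ n f, rl2 f ∈ Rs n → ∀ z ∈ π.N, ∀ z' ∈ π.N, f z z' ∈ π.N := fun n f hf z hz z' hz' =>
    (hR n _ hf _ (query2 hz hz' (π.gC 0))).1
  exact ⟨π,
    { cld := hR 1
      cldT := fun θ ρ hρ => hR 2 ρ (Set.mem_iUnion.2 ⟨θ, hρ⟩)
      bn := fun n => (hR 0 rB rfl _ (query2 π.om π.om (π.gC n))).1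
      en := hN 0 _ rfl
      cn := fun k => hN 1 _ ⟨k, rfl⟩
      wo := fun k => hN 2 _ ⟨k, rfl⟩
      lam := hN 3 _ rfl
      r1 := fun s => h1 3 _ ⟨s, rfl⟩
      r2 := fun s => h1 4 _ ⟨s, rfl⟩
      r3 := fun o => h2 5 _ ⟨o, rfl⟩
      r4 := fun k => h2 6 _ ⟨k, rfl⟩
      r5 := h1 7 _ rfl
      r6 := fun θ => h1 8 _ ⟨θ, rfl⟩
      r7 := fun θ m => h1 9 _ ⟨(θ, m), rfl⟩
      r8 := fun k => h1 10 _ ⟨k, rfl⟩ }⟩

section

variable {π : Pkg P} (h : Good π)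

include h

theorem isZF : IsZF (sys.Ms π) := T_ZF.main T_TRU.main T_SEP.main _ _ π h.cld

theorem isZFT (θ : ℕ) : IsZF ((sysT θ).Ms π) := T_ZF.main T_TRU.main T_SEP.main _ _ π (h.cldT θ)

theorem hat_mem {x : ZFSet.{0}} (hx : x ∈ π.Z) : π.hat x ∈ sys.Ms π := ⟨_, ⟨hx, sys.hs_check _⟩, rfl⟩

/-- The members of `ω_k` in the model. -/
theorem mem_wo {k : ℕ} {z : ZFSet.{0}} (hz : z ∈ π.hat (wo k).toZFSet) :
    ∃ a : I k, (od a).toZFSet ∈ π.Z ∧ z = π.hat (od a).toZFSet := by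
  obtain ⟨y, hy, hyZ, rfl⟩ := π.mem_hat.1 hz
  obtain ⟨α, hα, rfl⟩ := Ordinal.mem_toZFSet_iff.1 hy
  obtain ⟨a, rfl⟩ := od_surj hα
  exact ⟨a, hyZ, rfl⟩

theorem wo_mem {k : ℕ} {a : I k} (ha : (od a).toZFSet ∈ π.Z) :
    π.hat (od a).toZFSet ∈ π.hat (wo k).toZFSet :=
  (π.hat_mem_hat ha (h.wo k)).2 (Ordinal.toZFSet_mem_toZFSet_iff.2 (od_lt a))

theorem hat_od {k : ℕ} {a b : I k} (ha : (od a).toZFSet ∈ π.Z) (hb : (od b).toZFSet ∈ π.Z)
    (e : π.hat (od a).toZFSet = π.hat (od b).toZFSet) : a = b :=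
  od_inj (Ordinal.toZFSet_injective ((π.hat_inj ha hb).1 e))

theorem opN_nat {x : ZFSet.{0}} (hx : x ∈ π.Z) (n : ℕ) : opN (check x) (check (nat n)) ∈ π.N ∧
    π.val (opN (check x) (check (nat n))) = pair (π.hat x) (nat n) := by
  refine ⟨π.opN_mem hx (π.nat_Z n), ?_⟩
  rw [π.val_opN hx (π.nat_Z n)]
  exact congrArg _ (π.hat_nat n)

/-- No name that is fixed by the levels below `θ` gives an injection from `ω_{θ + 1}` to `ω`. -/
theorem no_inj {θ : ℕ} {τ : PName P} (hτ : τ ∈ π.N) (hf : sys.Fix (fix θ) τ)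
    (h1 : ∀ a ∈ π.hat (wo (θ + 1)).toZFSet, ∃ n : ℕ, pair a (nat n) ∈ π.val τ)
    (h2 : ∀ a b c, pair a c ∈ π.val τ → pair b c ∈ π.val τ → a = b) : False := by
  have hsm : ∃ a : I (θ + 1), ∀ n, Bp τ a n ∩ ext (Oth (Bp τ) a n) = ∅ :=
    exists_small (Bp τ) (fun a n => op_BV _ _) fun a n =>
      det_BV (fix_opN (fix_check _ _) (fix_check _ _)) hf
  have hg : ∀ n, Bp τ (gm θ τ) n ∩ ext (Oth (Bp τ) (gm θ τ) n) = ∅ := by
    unfold gm
    rw [dif_pos hsm]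
    exact hsm.choose_spec
  have hgZ : (od (gm θ τ)).toZFSet ∈ π.Z := h.r6 θ τ hτ
  have hval : ∀ a : I (θ + 1), (od a).toZFSet ∈ π.Z → ∀ n,
      (pair (π.hat (od a).toZFSet) (nat n) ∈ π.val τ ↔ Tr π (Bp τ a n)) := by
    intro a ha n
    obtain ⟨h3, h4⟩ := opN_nat h ha n
    rw [← h4, val_mem h3 hτ]
    rfl
  obtain ⟨m, hm⟩ := h1 _ (wo_mem h hgZ)
  have hT := (hval _ hgZ m).1 hm
  have h7 : fN {b : I (θ + 1) // b ≠ gm θ τ} (fun b => check (od b.1).toZFSet)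
      (fun b => Bp τ b.1 m) ∈ π.N := h.r7 θ m τ hτ
  rcases wit h7 fun b => op_BV _ _ with ⟨⟨b, hb⟩, hbZ, h8⟩ | ⟨k, hk⟩
  · exact hb (hat_od h hbZ hgZ (h2 _ _ _ ((hval b hbZ m).2 h8) hm))
  · have h9 : (π.g k).1 ∩ Oth (Bp τ) (gm θ τ) m = ∅ := by
      refine Set.eq_empty_of_forall_notMem fun x hx => ?_
      obtain ⟨b, hb⟩ := Set.mem_iUnion.1 hx.2
      have h10 : x ∈ (π.g k).1 ∩ Bp τ b.1 m := ⟨hx.1, hb⟩
      rw [hk b] at h10
      exact h10
    have h10 := (hT.inter ((tr_g (π := π) k).mono (sub_ext (π.g k).2.1 h9))).ne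
    rw [hg m] at h10
    exact absurd h10 Set.not_nonempty_empty

/-- The collapse. -/
theorem isInj_CN (k : ℕ) : IsInj (π.hat (wo k).toZFSet) ZFSet.omega (π.val (CN k)) := by
  have hmem : ∀ w, w ∈ π.val (CN k) ↔ ∃ (a : I k) (n : ℕ), (od a).toZFSet ∈ π.Z ∧
      Tr π (CO k a n) ∧ w = pair (π.hat (od a).toZFSet) (nat n) := by
    intro w
    unfold CN
    rw [val_fN]
    constructor
    · rintro ⟨⟨a, n⟩, h1, h2, rfl⟩
      have h3 : (od a).toZFSet ∈ π.Z := π.fst_mem h1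
      exact ⟨a, n, h3, h2, (opN_nat h h3 n).2⟩
    · rintro ⟨a, n, h1, h2, rfl⟩
      exact ⟨(a, n), (opN_nat h h1 n).1, h2, (opN_nat h h1 n).2.symm⟩
  refine ⟨⟨fun w hw => ?_, fun z hz => ?_⟩, fun a b c ha hb => ?_⟩
  · obtain ⟨a, n, h1, -, rfl⟩ := (hmem w).1 hw
    exact ZFSet.pair_mem_prod.2 ⟨wo_mem h h1, mem_omega_iff.2 ⟨n, rfl⟩⟩
  · obtain ⟨a, ha, rfl⟩ := mem_wo h hz
    obtain ⟨n, hn⟩ : ∃ n, Tr π (CO k a n) := by
      have h1 : ∃ b : I k, (check (od a).toZFSet : PName P) = check (od b).toZFSet := ⟨a, rfl⟩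
      have h2 := h.r8 k _ ha
      unfold f8 at h2
      rw [dif_pos h1] at h2
      have h3 : h1.choose = a :=
        (od_inj (Ordinal.toZFSet_injective (check_injective h1.choose_spec))).symm
      rw [h3] at h2
      exact dns h2 (op_CO k a) (dns_CO k a)
    refine ⟨nat n, (hmem _).2 ⟨a, n, ha, hn, rfl⟩, fun w hw => ?_⟩
    obtain ⟨b, m, hb, hm, e⟩ := (hmem _).1 hw
    obtain ⟨e1, rfl⟩ := ZFSet.pair_inj.1 e
    obtain rfl := hat_od h ha hb e1
    obtain ⟨x, hx1, hx2⟩ := (hm.inter hn).ne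
    rw [CO_uniq hx1 hx2]
  · obtain ⟨a, n, ha, hn, e⟩ := (hmem _).1 ha
    obtain ⟨b, m, hb, hm, e'⟩ := (hmem _).1 hb
    obtain ⟨rfl, rfl⟩ := ZFSet.pair_inj.1 e
    obtain ⟨rfl, e3⟩ := ZFSet.pair_inj.1 e'
    obtain rfl := nat_injective e3
    obtain ⟨x, hx1, hx2⟩ := (hm.inter hn).ne
    have h4 : a = b := hx2.1.symm.trans hx1.1
    rw [h4]

theorem CN_mem (k : ℕ) : π.val (CN k) ∈ sys.Ms π := by
  refine ⟨_, ⟨h.cn k, ?_⟩, rfl⟩
  refine hs_fN (θ := k + 1) (fix_fN fun g hg t => ⟨t, fun p => ?_, ?_⟩) fun t =>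
    sys.hs_opN (sys.hs_check _) (sys.hs_check _)
  · exact fix_opN (H := ⊤) (fix_check _ _) (fix_check _ _) g (Subgroup.mem_top _) p
  · have h1 : ∀ m x, ccv k m (pb g x) = ccv k m x := by
      intro m x
      change (g (J.co k m)).symm (x (J.co k m)) = _
      rw [hg (J.co k m) (Nat.lt_succ_self k)]
      rfl
    ext x
    rw [mem_im]
    unfold CO
    simp only [Set.mem_ofPred_eq, h1]

/-- The first uncountable ordinal of the model. -/
theorem aleph1 : IsAleph1 (sys.Ms π) (π.hat lam.toZFSet) := by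
  have hM := isZF h
  refine ⟨hat_mem h h.lam, π.hat_isOrdinal (ZFSet.isOrdinal_toZFSet _), ?_, ?_⟩
  · rintro ⟨f, ⟨τ, ⟨hτ, hs⟩, rfl⟩, hf⟩
    obtain ⟨_, ⟨θ, rfl⟩, hfix⟩ := hs.sym
    refine no_inj h hτ hfix (fun a ha => ?_) hf.2
    obtain ⟨b, hb, rfl⟩ := mem_wo h ha
    have h1 : π.hat (od b).toZFSet ∈ π.hat lam.toZFSet := (π.hat_mem_hat hb h.lam).2
      (Ordinal.toZFSet_mem_toZFSet_iff.2 ((od_lt b).trans_le (wo_le_lam _)))
    obtain ⟨w, hw, -⟩ := hf.1.2 _ h1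
    obtain ⟨n, rfl⟩ := mem_omega_iff.1 (ZFSet.pair_mem_prod.1 (hf.1.1 hw)).2
    exact ⟨n, hw⟩
  · intro α hα
    obtain ⟨y, hy, hyZ, rfl⟩ := π.mem_hat.1 hα
    obtain ⟨β, hβ, rfl⟩ := Ordinal.mem_toZFSet_iff.1 hy
    obtain ⟨k, -, hk⟩ := lt_lam hβ 0
    have hα' : π.hat β.toZFSet ∈ π.hat (wo k).toZFSet :=
      (π.hat_mem_hat hyZ (h.wo k)).2 (Ordinal.toZFSet_mem_toZFSet_iff.2 hk)
    have hsub : π.hat β.toZFSet ⊆ π.hat (wo k).toZFSet := fun z hz =>
      (π.hat_isOrdinal (ZFSet.isOrdinal_toZFSet _)).mem_trans hz hα'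
    have hB := hM.base
    have hC := CN_mem h k
    have hI := isInj_CN h k
    obtain ⟨f, hf, hf1, hf2⟩ := hM.rel_mem (hat_mem h hyZ) hM.infinity
      (Q := fun u v => pair u v ∈ π.val (CN k)) (by
        exact Dfn.mem (hB.pair' (DfnF.proj 0) (DfnF.proj 1)) (DfnF.const hC))
    refine ⟨f, hf, ⟨hf1, fun z hz => ?_⟩, fun a b c ha hb => ?_⟩
    · obtain ⟨w, hw, hu⟩ := hI.1.2 z (hsub hz)
      refine ⟨w, (hf2 _ _).2 ⟨hz, (ZFSet.pair_mem_prod.1 (hI.1.1 hw)).2, hw⟩, fun v hv => ?_⟩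
      exact hu v ((hf2 _ _).1 hv).2.2
    · exact hI.2 a b c ((hf2 _ _).1 ha).2.2 ((hf2 _ _).1 hb).2.2

/-- The ordinal `ω₁` is inaccessible to reals. -/
theorem inaccessible : InaccessibleToReals (sys.Ms π) := by
  rintro r ⟨τ, ⟨hτ, hs⟩, rfl⟩ hr
  obtain ⟨_, ⟨θ, rfl⟩, hfix⟩ := hs.sym
  refine ⟨π.hat (wo (θ + 1)).toZFSet, hat_mem h (h.wo _),
    π.hat_isOrdinal (ZFSet.isOrdinal_toZFSet _), ⟨_, CN_mem h _, isInj_CN h _⟩, ?_⟩
  rintro ⟨f, hf, hfi⟩
  have hfW : f ∈ (sysT θ).Ms π := by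
    refine hf _ (isZFT h θ) ?_ ?_ ?_
    · rintro _ ⟨x, ⟨hx, hxs⟩, rfl⟩
      exact ⟨x, ⟨hx, HST.hs hxs⟩, rfl⟩
    · rintro α ⟨x, ⟨hx, -⟩, rfl⟩ hα
      obtain ⟨y, hy, e⟩ := π.ord_V hα (π.val_mem_W hx)
      rw [← e]
      exact ⟨_, ⟨hy, (sysT θ).hs_check _⟩, rfl⟩
    · refine ⟨f5 τ, ⟨h.r5 τ hτ, ?_⟩, ?_⟩
      · refine hst_fN (fix_fN fun g hg n => ⟨n, fun p => act_ck g _ p, ?_⟩)
          fun n => (sysT θ).hs_check _
        exact (det_BV (fix_check _ _) hfix).im hg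
      · have h1 : ∀ n, (nat n ∈ π.val τ ↔ Tr π (BV (check (nat n)) τ)) := by
          intro n
          rw [← val_mem (π.nat_Z n) hτ]
          exact iff_of_eq (congrArg (· ∈ π.val τ) (π.hat_nat n).symm)
        ext w
        unfold f5
        rw [val_fN]
        constructor
        · rintro ⟨n, -, h2, rfl⟩
          have e : π.val (check (nat n)) = nat n := π.hat_nat n
          rw [e]
          exact (h1 n).2 h2
        · intro hw
          obtain ⟨n, rfl⟩ := mem_omega_iff.1 (hr hw)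
          exact ⟨n, π.nat_Z n, (h1 n).1 hw, (π.hat_nat n).symm⟩
  obtain ⟨σ, ⟨hσ, hσs⟩, rfl⟩ := hfW
  refine no_inj h hσ (HST.sym hσs) (fun a ha => ?_) hfi.2
  obtain ⟨w, hw, -⟩ := hfi.1.2 _ ha
  obtain ⟨n, rfl⟩ := mem_omega_iff.1 (ZFSet.pair_mem_prod.1 (hfi.1.1 hw)).2
  exact ⟨n, hw⟩

end

end Pool.Agent.K7.H48.SK
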