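import Pool.Agent.R598.SY.T_ZF
import Pool.Agent.R598.SY.T_TRU
import Pool.Agent.R598.SY.T_SEP
import Pool.Agent.K7.H48.SK.Tree

/-!
# The notion of forcing, its automorphisms, and names
-/

set_option autoImplicit false
set_option linter.unusedSectionVars false

namespace Pool.Agent.K7.H48.SK

open Pool.Agent.W868 Pool.Agent.W868.PName Pool.Agent.R598.SY
open ZFSet (pair)

/-- The ordinal `ω_k`. -/
noncomputable def wo (k : ℕ) : Ordinal.{0} := (Cardinal.aleph (k : Ordinal.{0})).ord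

/-- The index set of the level `k`: a well-ordered set of the order type `ω_k`. -/
abbrev I (k : ℕ) : Type := (wo k).ToType

/-- The coordinates. -/
inductive J : Type
  | co (k n : ℕ) : J
  | tr (k : ℕ) (a : I k) (s : Nd) : J

/-- The level of a coordinate. -/
def lv : J → ℕ
  | .co k _ => k
  | .tr k _ _ => k

/-- The values of the coordinates. -/
def A : J → Type
  | .co k _ => I k
  | .tr _ _ _ => Nd

theorem wo_pos (k : ℕ) : 0 < wo k := by
  rw [wo, Cardinal.lt_ord, Ordinal.card_zero]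
  exact Cardinal.aleph_pos _

instance (k : ℕ) : Nonempty (I k) := by
  rw [Ordinal.nonempty_toType_iff]
  exact (wo_pos k).ne'

instance (j : J) : Nonempty (A j) := by
  cases j with
  | co k n => exact inferInstanceAs (Nonempty (I k))
  | tr k a s => exact inferInstanceAs (Nonempty Nd)

/-- The space. -/
abbrev X : Type := ∀ j, A j

/-- The basic neighbourhoods. -/
def nb (x : X) (F : Finset J) : Set X := {y | ∀ j ∈ F, y j = x j}

theorem nb_self (x : X) (F : Finset J) : x ∈ nb x F := fun _ _ => rfl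

/-- Open sets. -/
def Op (U : Set X) : Prop := ∀ x ∈ U, ∃ F : Finset J, nb x F ⊆ U

theorem op_nb (x : X) (F : Finset J) : Op (nb x F) := fun _ hy =>
  ⟨F, fun _ hz j hj => (hz j hj).trans (hy j hj)⟩

theorem op_univ : Op Set.univ := fun _ _ => ⟨∅, Set.subset_univ _⟩

theorem op_empty : Op ∅ := fun _ h => absurd h (Set.notMem_empty _)

theorem Op.inter {U V : Set X} (hU : Op U) (hV : Op V) : Op (U ∩ V) := by
  classical
  rintro x ⟨h1, h2⟩
  obtain ⟨u, hu⟩ := hU x h1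
  obtain ⟨v, hv⟩ := hV x h2
  exact ⟨u ∪ v, fun y hy => ⟨hu fun j hj => hy j (Finset.mem_union_left _ hj),
    hv fun j hj => hy j (Finset.mem_union_right _ hj)⟩⟩

theorem op_iUnion {ι : Sort*} {U : ι → Set X} (h : ∀ i, Op (U i)) : Op (⋃ i, U i) := by
  intro x hx
  obtain ⟨i, hi⟩ := Set.mem_iUnion.1 hx
  obtain ⟨u, hu⟩ := h i x hi
  exact ⟨u, hu.trans (Set.subset_iUnion U i)⟩

/-- The interior of the complement. -/
def ext (O : Set X) : Set X := {x | ∃ F : Finset J, nb x F ∩ O = ∅}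

theorem op_ext (O : Set X) : Op (ext O) := by
  rintro x ⟨F, hF⟩
  refine ⟨F, fun y hy => ⟨F, ?_⟩⟩
  rw [← Set.subset_empty_iff, ← hF]
  exact fun z hz => ⟨fun j hj => (hz.1 j hj).trans (hy j hj), hz.2⟩

theorem not_ext {O : Set X} {x : X} (h : x ∈ O) (h' : x ∈ ext O) : False := by
  obtain ⟨F, hF⟩ := h'
  have h1 : x ∈ nb x F ∩ O := ⟨nb_self x F, h⟩
  rw [hF] at h1
  exact h1

theorem sub_ext {U O : Set X} (hU : Op U) (h : U ∩ O = ∅) : U ⊆ ext O := by
  intro x hx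
  obtain ⟨F, hF⟩ := hU x hx
  refine ⟨F, ?_⟩
  rw [← Set.subset_empty_iff, ← h]
  exact fun z hz => ⟨hF hz.1, hz.2⟩

/-- The condition on one coordinate. -/
theorem op_coord (j : J) (S : Set (A j)) : Op {x | x j ∈ S} := by
  intro x hx
  refine ⟨{j}, fun y hy => ?_⟩
  change y j ∈ S
  rw [hy j (Finset.mem_singleton_self j)]
  exact hx

/-- The group. -/
abbrev G : Type := ∀ j, Equiv.Perm (A j)

/-- The inverse action on the points. -/
def pb (g : G) (x : X) : X := fun j => (g j).symm (x j)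

theorem pb_mul (g h : G) (x : X) : pb (g * h) x = pb h (pb g x) := rfl

theorem pb_one (x : X) : pb 1 x = x := rfl

theorem pb_inv (g : G) (x : X) : pb g (pb g⁻¹ x) = x := by
  rw [← pb_mul, inv_mul_cancel, pb_one]

theorem pb_inv' (g : G) (x : X) : pb g⁻¹ (pb g x) = x := by
  rw [← pb_mul, mul_inv_cancel, pb_one]

/-- The image. -/
def im (g : G) (O : Set X) : Set X := pb g ⁻¹' O

theorem mem_im {g : G} {O : Set X} {x : X} : x ∈ im g O ↔ pb g x ∈ O := Iff.rfl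

theorem mem_nb_pb {g : G} {x y : X} {F : Finset J} : pb g y ∈ nb (pb g x) F ↔ y ∈ nb x F := by
  refine forall₂_congr fun j _ => ?_
  exact (g j).symm.injective.eq_iff

theorem op_im (g : G) {O : Set X} (h : Op O) : Op (im g O) := by
  intro x hx
  obtain ⟨F, hF⟩ := h _ hx
  exact ⟨F, fun y hy => hF (mem_nb_pb.2 hy)⟩

theorem im_ext (g : G) (O : Set X) : im g (ext O) = ext (im g O) := by
  ext x
  constructor
  · rintro ⟨F, hF⟩
    refine ⟨F, Set.eq_empty_of_forall_notMem fun y hy => ?_⟩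
    have h1 : pb g y ∈ nb (pb g x) F ∩ O := ⟨mem_nb_pb.2 hy.1, hy.2⟩
    rw [hF] at h1
    exact h1
  · rintro ⟨F, hF⟩
    refine ⟨F, Set.eq_empty_of_forall_notMem fun y hy => ?_⟩
    have h1 : pb g⁻¹ y ∈ nb x F ∩ im g O := by
      refine ⟨?_, ?_⟩
      · have h2 := (mem_nb_pb (g := g⁻¹)).2 hy.1
        rwa [pb_inv'] at h2
      · rw [mem_im, pb_inv]
        exact hy.2
    rw [hF] at h1
    exact h1

/-- Conditions: nonempty open sets. -/
def P : Type := {U : Set X // Op U ∧ U.Nonempty}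

instance : Preorder P where
  le U V := U.1 ⊆ V.1
  le_refl _ := subset_rfl
  le_trans _ _ _ h h' := h.trans h'

instance : OrderTop P where
  top := ⟨Set.univ, op_univ, Set.univ_nonempty⟩
  le_top _ := Set.subset_univ _

theorem le_sub {U V : P} (h : U ≤ V) : U.1 ⊆ V.1 := h

/-- The intersection of two conditions. -/
def capP (U : P) (V : Set X) (hV : Op V) (h : (U.1 ∩ V).Nonempty) : P :=
  ⟨U.1 ∩ V, U.2.1.inter hV, h⟩

/-- The action on the conditions. -/
def mv (g : G) (U : P) : P :=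
  ⟨im g U.1, op_im g U.2.1, by
    obtain ⟨x, hx⟩ := U.2.2
    refine ⟨pb g⁻¹ x, ?_⟩
    rw [mem_im, pb_inv]
    exact hx⟩

theorem mv_inv_mv (g : G) (U : P) : mv g (mv g⁻¹ U) = U := by
  refine Subtype.ext (Set.ext fun x => ?_)
  change pb g⁻¹ (pb g x) ∈ U.1 ↔ _
  rw [pb_inv']

/-- The action. -/
def acH : G →* (P ≃o P) where
  toFun g :=
    { toFun := mv g
      invFun := mv g⁻¹
      left_inv := by
        intro U
        refine Subtype.ext (Set.ext fun x => ?_)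
        change pb g (pb g⁻¹ x) ∈ U.1 ↔ x ∈ U.1
        rw [pb_inv]
      right_inv := mv_inv_mv g
      map_rel_iff' := by
        intro U V
        constructor
        · intro h x hx
          have h1 : pb g⁻¹ x ∈ (mv g U).1 := by
            change pb g (pb g⁻¹ x) ∈ U.1
            rw [pb_inv]
            exact hx
          have h2 := h h1
          change pb g (pb g⁻¹ x) ∈ V.1 at h2
          rwa [pb_inv] at h2
        · exact fun h x hx => h hx }
  map_one' := by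
    ext U
    rfl
  map_mul' := by
    intro g h
    ext U
    rfl

/-- The pointwise stabilizer of the levels below `θ`. -/
def fix (θ : ℕ) : Subgroup G where
  carrier := {g | ∀ j, lv j < θ → g j = 1}
  mul_mem' := by
    intro g h hg hh j hj
    change g j * h j = 1
    rw [hg j hj, hh j hj, mul_one]
  one_mem' := fun _ _ => rfl
  inv_mem' := by
    intro g hg j hj
    change (g j)⁻¹ = 1
    rw [hg j hj, inv_one]

theorem fix_mono {θ θ' : ℕ} (h : θ ≤ θ') : fix θ' ≤ fix θ := fun _ hg j hj =>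
  hg j (hj.trans_le h)

/-- The symmetric system. -/
def sys : Sys P where
  G := G
  grp := inferInstance
  ac := acH
  top := fun g => Subtype.ext rfl
  F := {H | ∃ θ, H = fix θ}
  ne := ⟨_, ⟨0, rfl⟩⟩
  conj := by
    rintro _ ⟨θ, rfl⟩ g
    refine ⟨_, ⟨θ, rfl⟩, fun k hk j hj => ?_⟩
    change (g j)⁻¹ * k j * g j = 1
    rw [hk j hj, mul_one, inv_mul_cancel]
  dir := by
    rintro _ ⟨θ, rfl⟩ _ ⟨θ', rfl⟩
    exact ⟨_, ⟨max θ θ', rfl⟩, fix_mono (le_max_left _ _), fix_mono (le_max_right _ _)⟩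

/-- The system for the submodel of the level `θ`. -/
def sysT (θ : ℕ) : Sys P where
  G := fix θ
  grp := inferInstance
  ac := acH.comp (fix θ).subtype
  top := fun g => Subtype.ext rfl
  F := {⊤}
  ne := ⟨_, rfl⟩
  conj := by
    rintro _ rfl g
    exact ⟨⊤, rfl, fun _ _ => Subgroup.mem_top _⟩
  dir := by
    rintro _ rfl _ rfl
    exact ⟨⊤, rfl, le_rfl, le_rfl⟩

theorem ac_apply (g : G) (U : P) : sys.ac g U = mv g U := rfl

theorem fixT_iff {θ : ℕ} {x : PName P} : (sysT θ).Fix ⊤ x ↔ sys.Fix (fix θ) x := by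
  constructor
  · intro h g hg p
    exact h ⟨g, hg⟩ (Subgroup.mem_top _) p
  · intro h g _ p
    exact h g.1 g.2 p

theorem HST.sym {θ : ℕ} {x : PName P} (h : (sysT θ).HS x) : sys.Fix (fix θ) x := by
  obtain ⟨H, rfl, h1⟩ := h.sym
  exact fixT_iff.1 h1

theorem HST.hs {θ : ℕ} {x : PName P} (h : (sysT θ).HS x) : sys.HS x := by
  induction x using el_ind with
  | h x ih =>
    exact sys.hs_iff.2 ⟨⟨_, ⟨θ, rfl⟩, HST.sym h⟩, fun z c hz => ih z c hz (h.el hz)⟩

/-! ### Sets determined by the levels below `θ` -/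

/-- The set is determined by the coordinates of the levels below `θ`. -/
def Det (θ : ℕ) (O : Set X) : Prop := ∀ x ∈ O, ∀ y : X, (∀ j, lv j < θ → y j = x j) → y ∈ O

theorem Det.mono {θ θ' : ℕ} (h : θ ≤ θ') {O : Set X} (hO : Det θ O) : Det θ' O :=
  fun x hx y hy => hO x hx y fun j hj => hy j (hj.trans_le h)

open Classical in
theorem det_of {θ : ℕ} {O : Set X} (h : ∀ g ∈ fix θ, im g O = O) : Det θ O := by
  intro x hx y hy
  let g : G := fun j => Equiv.swap (x j) (y j)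
  have h1 : g ∈ fix θ := fun j hj => by
    change Equiv.swap (x j) (y j) = 1
    rw [hy j hj, Equiv.swap_self]
    rfl
  rw [← h g h1]
  have h2 : pb g y = x := by
    funext j
    change (Equiv.swap (x j) (y j)).symm (y j) = x j
    rw [Equiv.symm_swap, Equiv.swap_apply_right]
  rw [mem_im, h2]
  exact hx

theorem Det.im {θ : ℕ} {O : Set X} (h : Det θ O) {g : G} (hg : g ∈ fix θ) : im g O = O := by
  have h1 : ∀ x : X, ∀ j, lv j < θ → pb g x j = x j := by
    intro x j hj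
    change (g j).symm (x j) = x j
    rw [hg j hj]
    rfl
  ext x
  constructor
  · intro hx
    exact h _ hx x fun j hj => (h1 x j hj).symm
  · intro hx
    exact h x hx _ (h1 x)

theorem Det.im' {θ : ℕ} {O : Set X} (h : Det θ O) (g : G) : Det θ (SK.im g O) := by
  intro x hx y hy
  refine h _ hx _ fun j hj => ?_
  change (g j).symm (y j) = (g j).symm (x j)
  rw [hy j hj]

theorem Det.ext {θ : ℕ} {O : Set X} (h : Det θ O) : Det θ (ext O) := by
  classical
  rintro x ⟨F, hF⟩ y hy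
  refine ⟨F, Set.eq_empty_of_forall_notMem fun z hz => ?_⟩
  let z' : X := fun j => if lv j < θ then z j else x j
  have h1 : z' ∈ nb x F ∩ O := by
    refine ⟨fun j hj => ?_, h z hz.2 z' fun j hj => if_pos hj⟩
    by_cases h2 : lv j < θ
    · have h3 : z' j = z j := if_pos h2
      rw [h3, hz.1 j hj, hy j h2]
    · exact if_neg h2
  rw [hF] at h1
  exact h1

/-! ### Names -/

/-- The name for the set of the `z i` such that the generic point is in `O i`. -/
def fN (ι : Type) (z : ι → PName P) (O : ι → Set X) : PName P :=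
  PName.mk {t : ι × P // t.2.1 ⊆ O t.1} (fun t => z t.1.1) (fun t => t.1.2)

theorem el_fN {ι : Type} {z : ι → PName P} {O : ι → Set X} {y : PName P} {c : P} :
    El (fN ι z O) y c ↔ ∃ i, c.1 ⊆ O i ∧ y = z i := by
  rw [fN, el_mk]
  constructor
  · rintro ⟨⟨⟨i, c⟩, h⟩, rfl, rfl⟩
    exact ⟨i, h, rfl⟩
  · rintro ⟨i, h, rfl⟩
    exact ⟨⟨⟨i, c⟩, h⟩, rfl, rfl⟩

theorem el_act_fN {g : G} {ι : Type} {z : ι → PName P} {O : ι → Set X} {y : PName P} {c : P} :
    El (act (sys.ac g) (fN ι z O)) y c ↔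
      El (fN ι (fun i => act (sys.ac g) (z i)) (fun i => im g (O i))) y c := by
  rw [el_act, el_fN]
  constructor
  · rintro ⟨y', c', h, rfl, rfl⟩
    obtain ⟨i, h1, rfl⟩ := el_fN.1 h
    exact ⟨i, fun x hx => h1 hx, rfl⟩
  · rintro ⟨i, h, rfl⟩
    refine ⟨z i, mv g⁻¹ c, el_fN.2 ⟨i, fun x hx => ?_, rfl⟩, rfl, (mv_inv_mv g c).symm⟩
    have h1 := h hx
    rw [mem_im, pb_inv] at h1
    exact h1

theorem feq_fN {ι : Type} {z z' : ι → PName P} {O O' : ι → Set X} {p : P}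
    (hz : ∀ i, Feq (z i) (z' i) p) (hO : ∀ i, O i = O' i) :
    Feq (fN ι z O) (fN ι z' O') p := by
  rw [feq_iff']
  constructor
  · intro a c ha q hq hqc
    obtain ⟨i, h, rfl⟩ := el_fN.1 ha
    exact ⟨q, le_rfl, z' i, q, el_fN.2 ⟨i, by rw [← hO i]; exact (le_sub hqc).trans h, rfl⟩,
      le_rfl, (hz i).mono hq⟩
  · intro a c ha q hq hqc
    obtain ⟨i, h, rfl⟩ := el_fN.1 ha
    exact ⟨q, le_rfl, z i, q, el_fN.2 ⟨i, by rw [hO i]; exact (le_sub hqc).trans h, rfl⟩,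
      le_rfl, (hz i).mono hq⟩

theorem act_fN (g : G) {ι : Type} {z z' : ι → PName P} {O O' : ι → Set X} (p : P)
    (hz : ∀ i p, Feq (act (sys.ac g) (z i)) (z' i) p) (hO : ∀ i, im g (O i) = O' i) :
    Feq (act (sys.ac g) (fN ι z O)) (fN ι z' O') p :=
  feq_trans (feq_of_el fun _ _ => el_act_fN) (feq_fN (fun i => hz i p) hO)

theorem act_ck (g : G) (x : ZFSet.{0}) (p : P) : Feq (act (sys.ac g) (check x)) (check x) p := by
  rw [act_check (sys.top g)]
  exact Feq.refl _ _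

theorem act_act (g h : G) (v : PName P) : act (sys.ac g) (act (sys.ac h) v) =
    act (sys.ac (g * h : G)) v :=
  (act_mul _ _ _).symm.trans (congrArg (fun e => act e v) (acH.map_mul g h).symm)

theorem act_id (v : PName P) : act (sys.ac (1 : G)) v = v := by
  have e : sys.ac (1 : G) = 1 := acH.map_one
  rw [e, act_one]

theorem act_feq' {v w : PName P} (h : ∀ p, Feq v w p) (g : G) (p : P) :
    Feq (act (sys.ac g) v) (act (sys.ac g) w) p := by
  have h3 := feq_act' (e := sys.ac g) (h (mv g⁻¹ p))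
  have e2 : (sys.ac g) (mv g⁻¹ p) = p := mv_inv_mv g p
  rwa [e2] at h3

theorem fix_fN' {θ : ℕ} {ι : Type} {z : ι → PName P} {O : ι → Set X}
    (h : ∀ g : G, g ∈ fix θ → ∀ i, ∃ i', (∀ p, Feq (act (sys.ac g) (z i)) (z i') p) ∧
      im g (O i) = O i') (g : G) (hg : g ∈ fix θ) (p : P) :
    Feq (act (sys.ac g) (fN ι z O)) (fN ι z O) p := by
  rw [feq_iff']
  constructor
  · intro a c ha q _ hqc
    obtain ⟨i, h1, rfl⟩ := el_fN.1 (el_act_fN.1 ha)
    obtain ⟨i', h2, h3⟩ := h g hg i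
    refine ⟨q, le_rfl, z i', q, el_fN.2 ⟨i', ?_, rfl⟩, le_rfl, h2 q⟩
    rw [← h3]
    exact (le_sub hqc).trans h1
  · intro a c ha q _ hqc
    obtain ⟨i, h1, rfl⟩ := el_fN.1 ha
    obtain ⟨i', h2, h3⟩ := h g⁻¹ ((fix θ).inv_mem hg) i
    refine ⟨q, le_rfl, _, q, el_act_fN.2 (el_fN.2 ⟨i', ?_, rfl⟩), le_rfl, ?_⟩
    · intro y hy
      change pb g y ∈ O i'
      rw [← h3]
      change pb g⁻¹ (pb g y) ∈ O i
      rw [pb_inv']
      exact h1 (hqc hy)
    · have h4 := act_feq' (fun p => (h2 p).symm) g q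
      have e : act (sys.ac g) (act (sys.ac (g⁻¹ : G)) (z i)) = z i := by
        rw [act_act, mul_inv_cancel, act_id]
      rw [e] at h4
      exact h4

theorem fix_fN {θ : ℕ} {ι : Type} {z : ι → PName P} {O : ι → Set X}
    (h : ∀ g : G, g ∈ fix θ → ∀ i, ∃ i', (∀ p, Feq (act (sys.ac g) (z i)) (z i') p) ∧
      im g (O i) = O i') : sys.Fix (fix θ) (fN ι z O) := fun g hg p => fix_fN' h g hg p

theorem hs_fN {θ : ℕ} {ι : Type} {z : ι → PName P} {O : ι → Set X}
    (hf : sys.Fix (fix θ) (fN ι z O)) (hz : ∀ i, sys.HS (z i)) : sys.HS (fN ι z O) := by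
  refine sys.hs_iff.2 ⟨⟨_, ⟨θ, rfl⟩, hf⟩, fun y c hy => ?_⟩
  obtain ⟨i, -, rfl⟩ := el_fN.1 hy
  exact hz i

theorem hst_fN {θ : ℕ} {ι : Type} {z : ι → PName P} {O : ι → Set X}
    (hf : sys.Fix (fix θ) (fN ι z O)) (hz : ∀ i, (sysT θ).HS (z i)) : (sysT θ).HS (fN ι z O) := by
  refine (sysT θ).hs_iff.2 ⟨⟨_, rfl, fixT_iff.2 hf⟩, fun y c hy => ?_⟩
  obtain ⟨i, -, rfl⟩ := el_fN.1 hy
  exact hz i

/-! ### Boolean values -/

/-- The points with a neighbourhood that forces `z ∈ b`. -/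
def BV (z b : PName P) : Set X := {x | ∃ U : P, x ∈ U.1 ∧ Fmem z b U}

theorem op_BV (z b : PName P) : Op (BV z b) := by
  rintro x ⟨U, hx, hU⟩
  obtain ⟨u, hu⟩ := U.2.1 x hx
  exact ⟨u, fun y hy => ⟨U, hu hy, hU⟩⟩

theorem fmem_of_sub {z b : PName P} {U : P} (h : U.1 ⊆ BV z b) : Fmem z b U := by
  refine fmem_dense fun q hq => ?_
  obtain ⟨x, hx⟩ := q.2.2
  obtain ⟨V, hV, hV'⟩ := h (hq hx)
  exact ⟨capP q V.1 V.2.1 ⟨x, hx, hV⟩, fun _ hy => hy.1, hV'.mono fun _ hy => hy.2⟩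

theorem sub_of_fmem {z b : PName P} {U : P} (h : Fmem z b U) : U.1 ⊆ BV z b :=
  fun _ hx => ⟨U, hx, h⟩

theorem BV_act (g : G) (z b : PName P) :
    BV (act (sys.ac g) z) (act (sys.ac g) b) = im g (BV z b) := by
  ext x
  constructor
  · rintro ⟨U, hx, hU⟩
    refine ⟨mv g⁻¹ U, ?_, ?_⟩
    · change pb g⁻¹ (pb g x) ∈ U.1
      rw [pb_inv']
      exact hx
    · rw [← mv_inv_mv g U] at hU
      exact (fmem_act (e := sys.ac g)).1 hU
  · rintro ⟨U, hx, hU⟩
    exact ⟨mv g U, hx, fmem_act' (e := sys.ac g) hU⟩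

theorem BV_congr {z b z' b' : PName P} (hz : ∀ p, Feq z z' p) (hb : ∀ p, Feq b b' p) :
    BV z b = BV z' b' := by
  ext x
  exact ⟨fun ⟨U, hx, hU⟩ => ⟨U, hx, fmem_congr (hz U) (hb U) hU⟩,
    fun ⟨U, hx, hU⟩ => ⟨U, hx, fmem_congr (hz U).symm (hb U).symm hU⟩⟩

/-- The Boolean values for fixed parameters are determined by the levels below `θ`. -/
theorem det_BV {θ : ℕ} {z b : PName P} (hz : sys.Fix (fix θ) z) (hb : sys.Fix (fix θ) b) :
    Det θ (BV z b) := by
  refine det_of fun g hg => ?_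
  rw [← BV_act, BV_congr (hz g hg) (hb g hg)]

theorem fix_check (H : Subgroup sys.G) (x : ZFSet.{0}) : sys.Fix H (check x) := by
  intro g _ p
  rw [act_check (sys.top g)]
  exact Feq.refl _ _

theorem fix_opN {H : Subgroup sys.G} {x y : PName P} (hx : sys.Fix H x) (hy : sys.Fix H y) :
    sys.Fix H (opN x y) := by
  intro g hg p
  rw [act_opN (sys.top g)]
  exact feq_opN (hx g hg p) (hy g hg p)

/-! ### The generic filter -/

section

variable {π : Pkg P}

/-- The open set contains a condition of the generic sequence. -/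
def Tr (π : Pkg P) (O : Set X) : Prop := ∃ k, (π.g k).1 ⊆ O

theorem Tr.mono {O O' : Set X} (h : Tr π O) (hO : O ⊆ O') : Tr π O' := by
  obtain ⟨k, hk⟩ := h
  exact ⟨k, hk.trans hO⟩

theorem Tr.inter {O O' : Set X} (h : Tr π O) (h' : Tr π O') : Tr π (O ∩ O') := by
  obtain ⟨k, hk⟩ := h
  obtain ⟨m, hm⟩ := h'
  exact ⟨max k m, fun x hx => ⟨hk (π.g_le_left k m hx), hm (π.g_le_right k m hx)⟩⟩

theorem Tr.ne {O : Set X} (h : Tr π O) : O.Nonempty := by
  obtain ⟨k, hk⟩ := h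
  exact (π.g k).2.2.mono hk

theorem Tr.fin {α : Type} {L : Finset α} {f : α → Set X} (h : ∀ i ∈ L, Tr π (f i)) :
    Tr π {x | ∀ i ∈ L, x ∈ f i} := by
  classical
  induction L using Finset.induction_on with
  | empty => exact ⟨0, fun _ _ i hi => absurd hi (Finset.notMem_empty _)⟩
  | insert a L _ ih =>
    refine ((ih fun i hi => h i (Finset.mem_insert_of_mem hi)).inter
      (h a (Finset.mem_insert_self _ _))).mono ?_
    rintro x ⟨h1, h2⟩ i hi
    rcases Finset.mem_insert.1 hi with rfl | hi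
    · exact h2
    · exact h1 i hi

theorem tr_g (k : ℕ) : Tr π (π.g k).1 := ⟨k, subset_rfl⟩

theorem val_mem {z b : PName P} (hz : z ∈ π.N) (hb : b ∈ π.N) :
    π.val z ∈ π.val b ↔ Tr π (BV z b) := by
  rw [π.val_mem_iff hz hb]
  exact ⟨fun ⟨n, hn⟩ => ⟨n, sub_of_fmem hn⟩, fun ⟨n, hn⟩ => ⟨n, fmem_of_sub hn⟩⟩

theorem val_fN {ι : Type} {z : ι → PName P} {O : ι → Set X} {w : ZFSet.{0}} :
    w ∈ π.val (fN ι z O) ↔ ∃ i, z i ∈ π.N ∧ Tr π (O i) ∧ w = π.val (z i) := by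
  rw [π.mem_val]
  constructor
  · rintro ⟨y, hy, c, hc, ⟨n, hn⟩, rfl⟩
    obtain ⟨i, h, rfl⟩ := el_fN.1 hc
    exact ⟨i, hy, ⟨n, (le_sub hn).trans h⟩, rfl⟩
  · rintro ⟨i, hi, ⟨k, hk⟩, rfl⟩
    exact ⟨z i, hi, π.g k, el_fN.2 ⟨i, hk, rfl⟩, ⟨k, le_rfl⟩, rfl⟩

/-- Genericity. -/
theorem wit {ι : Type} {z : ι → PName P} {O : ι → Set X} (hN : fN ι z O ∈ π.N)
    (hO : ∀ i, Op (O i)) :
    (∃ i, z i ∈ π.N ∧ Tr π (O i)) ∨ ∃ k, ∀ i, (π.g k).1 ∩ O i = ∅ := by
  have hemp : (emp : PName P) ∈ π.N := T_TRU.emp_mem π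
  by_cases h : ∃ w, w ∈ π.val (fN ι z O)
  · obtain ⟨w, hw⟩ := h
    obtain ⟨i, h1, h2, -⟩ := val_fN.1 hw
    exact Or.inl ⟨i, h1, h2⟩
  · have h1 : π.val (fN ι z O) = π.val emp := by
      ext w
      constructor
      · exact fun hw => absurd ⟨w, hw⟩ h
      · intro hw
        obtain ⟨y, hy, c, hc, -, rfl⟩ := π.mem_val.1 hw
        obtain ⟨i, -, -⟩ := hc
        exact i.elim
    obtain ⟨k, hk⟩ := (π.val_eq_iff hN hemp).1 h1
    refine Or.inr ⟨k, fun i => Set.not_nonempty_iff_eq_empty.1 fun hne => ?_⟩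
    have h2 : capP (π.g k) (O i) (hO i) hne ≤ π.g k := fun _ hx => hx.1
    have h3 : (capP (π.g k) (O i) (hO i) hne).1 ⊆ O i := fun _ hx => hx.2
    obtain ⟨s, hs, w, d, hw, -, -⟩ := (feq_iff'.1 hk).1 (z i) (capP (π.g k) (O i) (hO i) hne)
      (el_fN.2 ⟨i, h3, rfl⟩) _ h2 le_rfl
    obtain ⟨j, -, -⟩ := hw
    exact j.elim

/-- The name for the dense set given by a family of open sets. -/
def dN {ι : Type} (O : ι → Set X) : PName P := fN ι (fun _ => emp) O

theorem wit' {ι : Type} {O : ι → Set X} (hN : dN O ∈ π.N) (hO : ∀ i, Op (O i)) :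
    (∃ i, Tr π (O i)) ∨ ∃ k, ∀ i, (π.g k).1 ∩ O i = ∅ := by
  rcases wit hN hO with ⟨i, -, h⟩ | h
  · exact Or.inl ⟨i, h⟩
  · exact Or.inr h

theorem dns {ι : Type} {O : ι → Set X} (hN : dN O ∈ π.N) (hO : ∀ i, Op (O i))
    (hd : ∀ U : P, ∃ i, (U.1 ∩ O i).Nonempty) : ∃ i, Tr π (O i) := by
  rcases wit' hN hO with h | ⟨k, hk⟩
  · exact h
  · obtain ⟨i, hi⟩ := hd (π.g k)
    rw [hk i] at hi
    exact absurd hi Set.not_nonempty_empty

/-- The name that decides one open set. -/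
def uN (O : Set X) : PName P := dN fun _ : Unit => O

theorem dec {O : Set X} (hN : uN O ∈ π.N) (hO : Op O) : Tr π O ∨ Tr π (ext O) := by
  rcases wit' hN fun _ => hO with ⟨-, h⟩ | ⟨k, hk⟩
  · exact Or.inl h
  · exact Or.inr ⟨k, sub_ext (π.g k).2.1 (hk ())⟩

theorem not_tr_ext {O : Set X} (h : Tr π O) (h' : Tr π (ext O)) : False := by
  obtain ⟨x, h1, h2⟩ := (h.inter h').ne
  exact not_ext h1 h2

/-- The name for the basic conditions below `p`. -/
def bN (p : P) : PName P := dN fun c : {c : X × Finset J // nb c.1 c.2 ⊆ p.1} => nb c.1.1 c.1.2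

theorem exists_nb {k : ℕ} (hN : bN (π.g k) ∈ π.N) :
    ∃ x F, nb x F ⊆ (π.g k).1 ∧ Tr π (nb x F) := by
  rcases wit' hN fun _ => op_nb _ _ with ⟨⟨⟨x, F⟩, h⟩, h1⟩ | ⟨m, hm⟩
  · exact ⟨x, F, h, h1⟩
  · exfalso
    obtain ⟨x, hx⟩ := (π.g (max m k)).2.2
    obtain ⟨F, hF⟩ := (π.g k).2.1 x (π.g_le_right m k hx)
    have h1 := hm ⟨(x, F), hF⟩
    have h2 : x ∈ (π.g m).1 ∩ nb x F := ⟨π.g_le_left m k hx, nb_self x F⟩
    rw [h1] at h2
    exact h2

end

end Pool.Agent.K7.H48.SK
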